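import Mathlib.Algebra.Category.ModuleCat.Monoidal.Basic
import Mathlib.Algebra.Category.ModuleCat.Abelian
import Mathlib.Algebra.Category.ModuleCat.Projective
import Mathlib.RingTheory.PowerSeries.Basic
import Mathlib.RingTheory.MvPowerSeries.Inverse
import Mathlib.RingTheory.AdicCompletion.Algebra
import Mathlib.CategoryTheory.Monoidal.Tor
import Mathlib.RingTheory.RegularLocalRing.Defs

set_option autoImplicit false

namespace Pool.Agent.MP_0ebce1_al

open CategoryTheory IsLocalRing

/-- The Betti number `dim_k Tor_i^R(M, k)`, as the length of the `R`-module `Tor_i^R(M, k)`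
(which is killed by the maximal ideal). -/
noncomputable def betti (R : Type) [CommRing R] [IsLocalRing R] (M : Type) [AddCommGroup M]
    [Module R M] (i : ℕ) : ℕ :=
  (Module.length R (((Tor (ModuleCat.{0} R) i).obj (ModuleCat.of R M)).obj
    (ModuleCat.of R (ResidueField R)))).toNat

/-- The Poincare series of `M` over `R`. -/
noncomputable def poincare (R : Type) [CommRing R] [IsLocalRing R] (M : Type) [AddCommGroup M]
    [Module R M] : PowerSeries ℚ :=
  PowerSeries.mk fun i => (betti R M i : ℚ)

/-- The structure map `R → S` is Golod: equality holds in the Serre-type bound. -/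
def IsGolod (R S : Type) [CommRing R] [IsLocalRing R] [CommRing S] [IsLocalRing S]
    [Algebra R S] : Prop :=
  poincare S (ResidueField S) =
    poincare R (ResidueField R) * (1 - PowerSeries.X * (poincare R S - 1))⁻¹

/-- `R` is `t`-homogeneous: for a minimal Cohen presentation `Q / I` of the completion of `R`,
`I ⊆ n ^ t` and `I ∩ n ^ (t + 1) ⊆ n I`. -/
def IsHomogeneous (t : ℕ) (R : Type) [CommRing R] [IsLocalRing R] : Prop :=
  ∃ (Q : Type) (_ : CommRing Q) (_ : IsRegularLocalRing Q)
    (φ : Q →+* AdicCompletion (maximalIdeal R) R), Function.Surjective φ ∧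
      RingHom.ker φ ≤ maximalIdeal Q ^ 2 ∧ RingHom.ker φ ≤ maximalIdeal Q ^ t ∧
      RingHom.ker φ ⊓ maximalIdeal Q ^ (t + 1) ≤ maximalIdeal Q * RingHom.ker φ

end Pool.Agent.MP_0ebce1_al
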