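import Mathlib.Algebra.Homology.ShortComplex.ModuleCat
import Mathlib.Algebra.Field.ZMod
import Mathlib.Algebra.Order.Ring.Star
import Mathlib.Algebra.Module.StablyFree.Basic
import Mathlib.RingTheory.TotallySplit
import Mathlib.RingTheory.Henselian
import Pool.Agent.MP_0ebce1_al.Defs

-- ======== part 0: formerly Pool.Agent.MP_0ebce1_al.Ex
section MrgPart0

set_option autoImplicit false

namespace Pool.Agent.MP_0ebce1_al

/-- the algebra `A[x, y] / (x y, x ^ 2 - y ^ 3)` with basis `1, x, y, y ^ 2, y ^ 3` -/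
@[ext] structure Ex (A : Type) where
  c0 : A
  c1 : A
  c2 : A
  c3 : A
  c4 : A
  deriving DecidableEq

namespace Ex

variable {A : Type} [CommRing A]

instance : Zero (Ex A) := ⟨⟨0, 0, 0, 0, 0⟩⟩
instance : One (Ex A) := ⟨⟨1, 0, 0, 0, 0⟩⟩
instance : Add (Ex A) :=
  ⟨fun a b => ⟨a.c0 + b.c0, a.c1 + b.c1, a.c2 + b.c2, a.c3 + b.c3, a.c4 + b.c4⟩⟩
instance : Neg (Ex A) := ⟨fun a => ⟨-a.c0, -a.c1, -a.c2, -a.c3, -a.c4⟩⟩
instance : Mul (Ex A) :=
  ⟨fun a b => ⟨a.c0 * b.c0, a.c0 * b.c1 + a.c1 * b.c0, a.c0 * b.c2 + a.c2 * b.c0,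
    a.c0 * b.c3 + a.c2 * b.c2 + a.c3 * b.c0,
    a.c0 * b.c4 + a.c4 * b.c0 + a.c1 * b.c1 + a.c2 * b.c3 + a.c3 * b.c2⟩⟩

@[simp] lemma zero_c0 : (0 : Ex A).c0 = 0 := rfl
@[simp] lemma zero_c1 : (0 : Ex A).c1 = 0 := rfl
@[simp] lemma zero_c2 : (0 : Ex A).c2 = 0 := rfl
@[simp] lemma zero_c3 : (0 : Ex A).c3 = 0 := rfl
@[simp] lemma zero_c4 : (0 : Ex A).c4 = 0 := rfl
@[simp] lemma one_c0 : (1 : Ex A).c0 = 1 := rfl
@[simp] lemma one_c1 : (1 : Ex A).c1 = 0 := rfl
@[simp] lemma one_c2 : (1 : Ex A).c2 = 0 := rfl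
@[simp] lemma one_c3 : (1 : Ex A).c3 = 0 := rfl
@[simp] lemma one_c4 : (1 : Ex A).c4 = 0 := rfl
@[simp] lemma add_c0 (a b : Ex A) : (a + b).c0 = a.c0 + b.c0 := rfl
@[simp] lemma add_c1 (a b : Ex A) : (a + b).c1 = a.c1 + b.c1 := rfl
@[simp] lemma add_c2 (a b : Ex A) : (a + b).c2 = a.c2 + b.c2 := rfl
@[simp] lemma add_c3 (a b : Ex A) : (a + b).c3 = a.c3 + b.c3 := rfl
@[simp] lemma add_c4 (a b : Ex A) : (a + b).c4 = a.c4 + b.c4 := rfl
@[simp] lemma neg_c0 (a : Ex A) : (-a).c0 = -a.c0 := rfl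
@[simp] lemma neg_c1 (a : Ex A) : (-a).c1 = -a.c1 := rfl
@[simp] lemma neg_c2 (a : Ex A) : (-a).c2 = -a.c2 := rfl
@[simp] lemma neg_c3 (a : Ex A) : (-a).c3 = -a.c3 := rfl
@[simp] lemma neg_c4 (a : Ex A) : (-a).c4 = -a.c4 := rfl
@[simp] lemma mul_c0 (a b : Ex A) : (a * b).c0 = a.c0 * b.c0 := rfl
@[simp] lemma mul_c1 (a b : Ex A) : (a * b).c1 = a.c0 * b.c1 + a.c1 * b.c0 := rfl
@[simp] lemma mul_c2 (a b : Ex A) : (a * b).c2 = a.c0 * b.c2 + a.c2 * b.c0 := rfl
@[simp] lemma mul_c3 (a b : Ex A) : (a * b).c3 = a.c0 * b.c3 + a.c2 * b.c2 + a.c3 * b.c0 := rfl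
@[simp] lemma mul_c4 (a b : Ex A) :
    (a * b).c4 = a.c0 * b.c4 + a.c4 * b.c0 + a.c1 * b.c1 + a.c2 * b.c3 + a.c3 * b.c2 := rfl

instance : AddCommGroup (Ex A) where
  add_assoc a b c := by ext <;> simp [add_assoc]
  zero_add a := by ext <;> simp
  add_zero a := by ext <;> simp
  add_comm a b := by ext <;> simp [add_comm]
  neg_add_cancel a := by ext <;> simp
  nsmul := nsmulRec
  zsmul := zsmulRec

instance : CommRing (Ex A) where
  mul_assoc a b c := by ext <;> simp <;> ring
  one_mul a := by ext <;> simp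
  mul_one a := by ext <;> simp
  mul_comm a b := by ext <;> simp <;> ring
  left_distrib a b c := by ext <;> simp <;> ring
  right_distrib a b c := by ext <;> simp <;> ring
  zero_mul a := by ext <;> simp
  mul_zero a := by ext <;> simp

/-- constants -/
def C : A →+* Ex A where
  toFun a := ⟨a, 0, 0, 0, 0⟩
  map_one' := rfl
  map_zero' := rfl
  map_add' a b := by ext <;> simp
  map_mul' a b := by ext <;> simp

@[simp] lemma C_c0 (a : A) : (C a).c0 = a := rfl
@[simp] lemma C_c1 (a : A) : (C a).c1 = 0 := rfl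
@[simp] lemma C_c2 (a : A) : (C a).c2 = 0 := rfl
@[simp] lemma C_c3 (a : A) : (C a).c3 = 0 := rfl
@[simp] lemma C_c4 (a : A) : (C a).c4 = 0 := rfl

/-- the first generator -/
def x : Ex A := ⟨0, 1, 0, 0, 0⟩
/-- the second generator -/
def y : Ex A := ⟨0, 0, 1, 0, 0⟩

@[simp] lemma x_c0 : (x : Ex A).c0 = 0 := rfl
@[simp] lemma x_c1 : (x : Ex A).c1 = 1 := rfl
@[simp] lemma x_c2 : (x : Ex A).c2 = 0 := rfl
@[simp] lemma x_c3 : (x : Ex A).c3 = 0 := rfl
@[simp] lemma x_c4 : (x : Ex A).c4 = 0 := rfl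
@[simp] lemma y_c0 : (y : Ex A).c0 = 0 := rfl
@[simp] lemma y_c1 : (y : Ex A).c1 = 0 := rfl
@[simp] lemma y_c2 : (y : Ex A).c2 = 1 := rfl
@[simp] lemma y_c3 : (y : Ex A).c3 = 0 := rfl
@[simp] lemma y_c4 : (y : Ex A).c4 = 0 := rfl

lemma x_mul_y : (x : Ex A) * y = 0 := by ext <;> simp
lemma x_mul_x : (x : Ex A) * x = y * (y * y) := by ext <;> simp

/-- the constant coefficient -/
def aug : Ex A →+* A where
  toFun a := a.c0
  map_one' := rfl
  map_zero' := rfl
  map_add' _ _ := rfl
  map_mul' _ _ := rfl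

/-- coordinates -/
def equivProd : Ex A ≃ A × A × A × A × A where
  toFun a := (a.c0, a.c1, a.c2, a.c3, a.c4)
  invFun p := ⟨p.1, p.2.1, p.2.2.1, p.2.2.2.1, p.2.2.2.2⟩
  left_inv _ := rfl
  right_inv _ := rfl

instance [Finite A] : Finite (Ex A) := Finite.of_equiv _ equivProd.symm

instance [Nontrivial A] : Nontrivial (Ex A) :=
  ⟨0, 1, fun h => zero_ne_one (congrArg Ex.c0 h)⟩

instance [CharP A 2] : CharP (Ex A) 2 :=
  charP_of_injective_ringHom (f := (C : A →+* Ex A)) (fun _ _ h => congrArg Ex.c0 h) 2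

lemma isUnit_iff (a : Ex A) : IsUnit a ↔ IsUnit a.c0 := by
  refine ⟨fun h => h.map aug, fun h => ?_⟩
  have h1 : a = C a.c0 + ⟨0, a.c1, a.c2, a.c3, a.c4⟩ := by ext <;> simp
  have h2 : IsNilpotent (⟨0, a.c1, a.c2, a.c3, a.c4⟩ : Ex A) :=
    ⟨4, by ext <;> simp [pow_succ]⟩
  rw [h1]
  exact h2.isUnit_add_left_of_commute (h.map C) (Commute.all _ _)

instance [IsLocalRing A] : IsLocalRing (Ex A) :=
  IsLocalRing.of_isUnit_or_isUnit_one_sub_self (fun a => by
    rw [isUnit_iff, isUnit_iff]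
    exact IsLocalRing.isUnit_or_isUnit_one_sub_self a.c0 |>.imp id
      (fun h => by simpa [sub_eq_add_neg] using h))

/-- the universal property -/
def lift {B : Type} [CommRing B] (f : A →+* B) (s t : B) (h1 : s * t = 0)
    (h2 : s * s = t * (t * t)) : Ex A →+* B where
  toFun a := f a.c0 + f a.c1 * s + f a.c2 * t + f a.c3 * (t * t) + f a.c4 * (t * (t * t))
  map_one' := by simp
  map_zero' := by simp
  map_add' a b := by simp; ring
  map_mul' a b := by
    have h3 : t * (t * (t * t)) = 0 := by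
      rw [← h2]
      linear_combination s * h1
    simp only [mul_c0, mul_c1, mul_c2, mul_c3, mul_c4, map_add, map_mul]
    linear_combination (-(f a.c1 * f b.c1)) * h2 -
      (f a.c1 * (f b.c2 + f b.c3 * t + f b.c4 * t * t) +
        f b.c1 * (f a.c2 + f a.c3 * t + f a.c4 * t * t)) * h1 -
      (f a.c2 * f b.c4 + f a.c4 * f b.c2 + f a.c3 * f b.c3 +
        (f a.c3 * f b.c4 + f a.c4 * f b.c3) * t + f a.c4 * f b.c4 * t * t) * h3

lemma lift_C {B : Type} [CommRing B] (f : A →+* B) (s t : B) (h1 : s * t = 0)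
    (h2 : s * s = t * (t * t)) (a : A) : lift f s t h1 h2 (C a) = f a := by simp [lift]

lemma lift_x {B : Type} [CommRing B] (f : A →+* B) (s t : B) (h1 : s * t = 0)
    (h2 : s * s = t * (t * t)) : lift f s t h1 h2 x = s := by simp [lift]

lemma lift_y {B : Type} [CommRing B] (f : A →+* B) (s t : B) (h1 : s * t = 0)
    (h2 : s * s = t * (t * t)) : lift f s t h1 h2 y = t := by simp [lift]

lemma eq_sum (a : Ex A) :
    a = C a.c0 + C a.c1 * x + C a.c2 * y + C a.c3 * (y * y) + C a.c4 * (y * (y * y)) := by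
  ext <;> simp

lemma ann_x {a : Ex A} (h : x * a = 0) : ∃ b, a = y * b := by
  have h1 := congrArg Ex.c1 h
  have h4 := congrArg Ex.c4 h
  simp at h1 h4
  exact ⟨⟨a.c2, 0, a.c3, a.c4, 0⟩, by ext <;> simp [h1, h4]⟩

lemma ann_y {a : Ex A} (h : y * a = 0) : ∃ b, a = x * b := by
  have h2 := congrArg Ex.c2 h
  have h3 := congrArg Ex.c3 h
  have h4 := congrArg Ex.c4 h
  simp at h2 h3 h4
  exact ⟨⟨a.c1, a.c4, 0, 0, 0⟩, by ext <;> simp [h2, h3, h4]⟩

end Ex

section grid

variable {B : Type} [CommRing B] {M : Type} [AddCommGroup M] [Module B M]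

/-- coefficient of the left step -/
def lc (s t : B) (i j : ℕ) : B := if (i + j) % 2 = 0 then s else if j < i then t else t * t

/-- coefficient of the right step -/
def rc (s t : B) (i j : ℕ) : B := if (i + j) % 2 = 1 then s else if j ≤ i then t * t else t

/-- the differential of the resolution for two variables -/
def g2 (s t : B) (z : ℕ → ℕ → M) (i j : ℕ) : M :=
  lc s t (i + 1) j • z (i + 1) j + rc s t i (j + 1) • z i (j + 1)

lemma lc_shift (s t : B) (i j : ℕ) : lc s t (i + 1) (j + 1) = lc s t i j := by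
  unfold lc
  have h1 : (i + 1 + (j + 1)) % 2 = (i + j) % 2 := by omega
  simp only [h1, Nat.add_lt_add_iff_right]

lemma rc_shift (s t : B) (i j : ℕ) : rc s t (i + 1) (j + 1) = rc s t i j := by
  unfold rc
  have h1 : (i + 1 + (j + 1)) % 2 = (i + j) % 2 := by omega
  simp only [h1, Nat.add_le_add_iff_right]

lemma g2_add (s t : B) (z w : ℕ → ℕ → M) (i j : ℕ) :
    g2 s t (fun a b => z a b + w a b) i j = g2 s t z i j + g2 s t w i j := by
  simp only [g2, smul_add]
  abel

lemma g2_congr (s t : B) {z w : ℕ → ℕ → M} {i j : ℕ} (h1 : z (i + 1) j = w (i + 1) j)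
    (h2 : z i (j + 1) = w i (j + 1)) : g2 s t z i j = g2 s t w i j := by
  rw [g2, g2, h1, h2]

lemma g2_zero (s t : B) {z : ℕ → ℕ → M} {i j : ℕ} (h1 : z (i + 1) j = 0)
    (h2 : z i (j + 1) = 0) : g2 s t z i j = 0 := by
  rw [g2, h1, h2, smul_zero, smul_zero, add_zero]

lemma g2_g2 [CharP B 2] {s t : B} (h1 : s * t = 0) (h2 : s * s = t * (t * t)) (z : ℕ → ℕ → M)
    (i j : ℕ) : g2 s t (g2 s t z) i j = 0 := by
  have h0 : (2 : B) = 0 := CharP.cast_eq_zero B 2
  have e1 : lc s t (i + 1) j * lc s t (i + 1 + 1) j = 0 := by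
    unfold lc
    split_ifs <;> first | omega | linear_combination h1 | linear_combination t * h1
  have e2 : rc s t i (j + 1) * rc s t i (j + 1 + 1) = 0 := by
    unfold rc
    split_ifs <;> first | omega | linear_combination h1 | linear_combination t * h1
  have e3 : lc s t (i + 1) j * rc s t (i + 1) (j + 1) +
      rc s t i (j + 1) * lc s t (i + 1) (j + 1) = 0 := by
    unfold lc rc
    split_ifs <;> first | omega | linear_combination h2 + t * t * t * h0
  have e : g2 s t (g2 s t z) i j =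
      (lc s t (i + 1) j * lc s t (i + 1 + 1) j) • z (i + 1 + 1) j +
      (lc s t (i + 1) j * rc s t (i + 1) (j + 1) +
        rc s t i (j + 1) * lc s t (i + 1) (j + 1)) • z (i + 1) (j + 1) +
      (rc s t i (j + 1) * rc s t i (j + 1 + 1)) • z i (j + 1 + 1) := by
    simp only [g2, smul_add, add_smul, mul_smul]
    abel
  rw [e, e1, e2, e3]
  simp

lemma g2_inj {k : Type} [AddCommGroup k] (s t : B) (f₁ f₂ : B →+ k) (e : B → k)
    (h11 : ∀ w, f₁ (s * w) = e w) (h12 : ∀ w, f₁ (t * w) = 0) (h13 : ∀ w, f₁ (t * t * w) = 0)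
    (h21 : ∀ w, f₂ (s * w) = 0) (h22 : ∀ w, f₂ (t * w) = e w) (z : ℕ → ℕ → B) (m : ℕ)
    (h : ∀ i j, i + j = m → f₁ (g2 s t z i j) = 0 ∧ f₂ (g2 s t z i j) = 0) :
    ∀ i j, i + j = m + 1 → e (z i j) = 0 := by
  intro i j hij
  by_cases hp : (i + j) % 2 = 0
  · rcases i with _ | i
    · obtain ⟨j, rfl⟩ : ∃ j', j = j' + 1 := ⟨j - 1, by omega⟩
      have := (h 0 j (by omega)).2
      rw [g2, lc, rc, if_pos (by omega), if_neg (by omega), if_neg (by omega)] at this
      simpa [h21, h22] using this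
    · have := (h i j (by omega)).1
      rw [g2, lc, rc, if_pos (by omega), if_neg (by omega)] at this
      split_ifs at this <;> simpa [h11, h12, h13] using this
  · rcases j with _ | j
    · obtain ⟨i, rfl⟩ : ∃ i', i = i' + 1 := ⟨i - 1, by omega⟩
      have := (h i 0 (by omega)).2
      rw [g2, lc, rc, if_neg (by omega), if_pos (by omega), if_pos (by omega)] at this
      simpa [h21, h22] using this
    · have := (h i j (by omega)).1
      rw [g2, lc, rc, if_neg (by omega), if_pos (show (i + (j + 1)) % 2 = 1 by omega)] at this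
      split_ifs at this <;> simpa [h11, h12, h13] using this

end grid

section exact

variable {A : Type} [CommRing A] [CharP A 2]

open Ex

/-- the cycle condition in degree `n` -/
def Cyc2 (n : ℕ) (z : ℕ → ℕ → Ex A) : Prop :=
  (n = 0 → (z 0 0).c0 = 0) ∧ ∀ i j, i + j + 1 = n → g2 (x : Ex A) y z i j = 0

lemma exact2 (n : ℕ) : ∀ z : ℕ → ℕ → Ex A, Cyc2 n z →
    ∃ w : ℕ → ℕ → Ex A, ∀ i j, i + j = n → g2 (x : Ex A) y w i j = z i j := by
  induction n using Nat.strong_induction_on with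
  | _ n ih =>
  intro z hz
  have h2 : ∀ a : A, a + a = 0 := CharTwo.add_self_eq_zero
  match n, ih, hz with
  | 0, _, hz =>
    refine ⟨fun i _ => if i = 0 then C (z 0 0).c1 else ⟨(z 0 0).c2, 0, (z 0 0).c3, (z 0 0).c4, 0⟩,
      fun i j hij => ?_⟩
    obtain rfl : i = 0 := by omega
    obtain rfl : j = 0 := by omega
    have := hz.1 rfl
    ext <;> simp [g2, lc, rc, this]
  | 1, _, hz =>
    have h := hz.2 0 0 rfl
    simp only [g2, lc, rc] at h
    norm_num at h
    have h1 := congrArg Ex.c1 h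
    have h3 := congrArg Ex.c2 h
    have h4 := congrArg Ex.c3 h
    have h5 := congrArg Ex.c4 h
    simp at h1 h3 h4 h5
    have h6 : (z 0 1).c1 = (z 1 0).c3 := by
      linear_combination h5 - h2 (z 1 0).c3
    refine ⟨fun i _ => if i = 0 then ⟨(z 0 1).c2, 0, (z 0 1).c3, (z 0 1).c4, 0⟩
      else if i = 1 then C (z 1 0).c3 else ⟨(z 1 0).c1, (z 1 0).c4, 0, 0, 0⟩, fun i j hij => ?_⟩
    rcases i with _ | i
    · obtain rfl : j = 1 := by omega
      ext <;> simp [g2, lc, rc, h1, h6]
    · obtain rfl : i = 0 := by omega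
      obtain rfl : j = 0 := by omega
      ext <;> simp [g2, lc, rc, h3, h4]
  | m + 2, ih, hz =>
    obtain ⟨w, hw⟩ := ih m (by omega) (fun i j => z (i + 1) (j + 1)) ⟨fun hm => by
      subst hm
      have h := hz.2 1 0 rfl
      simp only [g2, lc, rc] at h
      norm_num at h
      simpa using congrArg Ex.c3 h, fun i j hij => by
      have h := hz.2 (i + 1) (j + 1) (by omega)
      rw [g2, lc_shift, rc_shift] at h
      exact h⟩
    set w' : ℕ → ℕ → Ex A := fun i j => if i = 0 ∨ j = 0 then 0 else w (i - 1) (j - 1) with hw'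
    have hin : ∀ i j, i + j = m → g2 (x : Ex A) y w' (i + 1) (j + 1) = z (i + 1) (j + 1) := by
      intro i j hij
      rw [← hw i j hij, g2, g2, lc_shift, rc_shift]
      simp [hw']
    set z' : ℕ → ℕ → Ex A := fun i j => z i j + g2 (x : Ex A) y w' i j with hz'
    have hz'c : ∀ i j, i + j = m + 1 → g2 (x : Ex A) y z' i j = 0 := by
      intro i j hij
      rw [hz', g2_add, hz.2 i j (by omega), g2_g2 x_mul_y x_mul_x, add_zero]
    have hz'0 : ∀ i j, i + j = m → z' (i + 1) (j + 1) = 0 := by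
      intro i j hij
      simp only [hz', hin i j hij]
      exact CharTwo.add_self_eq_zero _
    have ha : ∃ a, z' (m + 2) 0 = lc (x : Ex A) y (m + 3) 0 * a := by
      have h := hz'c (m + 1) 0 rfl
      rw [g2, hz'0 m 0 rfl, smul_zero, add_zero, smul_eq_mul] at h
      unfold lc at h ⊢
      by_cases hp : m % 2 = 0
      · rw [if_pos (by omega)] at h
        rw [if_neg (by omega), if_pos (by omega)]
        exact ann_x h
      · rw [if_neg (by omega), if_pos (by omega)] at h
        rw [if_pos (by omega)]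
        exact ann_y h
    have hb : ∃ b, z' 0 (m + 2) = rc (x : Ex A) y 0 (m + 3) * b := by
      have h := hz'c 0 (m + 1) (by omega)
      rw [g2, hz'0 0 m (by omega), smul_zero, zero_add, smul_eq_mul] at h
      unfold rc at h ⊢
      by_cases hp : m % 2 = 0
      · rw [if_neg (by omega), if_neg (by omega)] at h
        rw [if_pos (by omega)]
        exact ann_y h
      · rw [if_pos (by omega)] at h
        rw [if_neg (by omega), if_neg (by omega)]
        exact ann_x h
    obtain ⟨a, ha⟩ := ha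
    obtain ⟨b, hb⟩ := hb
    refine ⟨fun i j => w' i j + if j = 0 then a else if i = 0 then b else 0, fun i j hij => ?_⟩
    rw [g2_add]
    have key : g2 (x : Ex A) y (fun i j => if j = 0 then a else if i = 0 then b else 0) i j =
        z' i j := by
      rcases i with _ | i
      · obtain rfl : j = m + 2 := by omega
        rw [hb]
        simp [g2]
      · rcases j with _ | j
        · obtain rfl : i = m + 1 := by omega
          rw [ha]
          simp [g2]
        · rw [hz'0 i j (by omega)]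
          simp [g2]
    rw [key, hz']
    simp only
    rw [add_comm (z i j), ← add_assoc, CharTwo.add_self_eq_zero, zero_add]

end exact

end Pool.Agent.MP_0ebce1_al

end MrgPart0

-- ======== part 1: formerly Pool.Agent.MP_0ebce1_al.TorCard
section MrgPart1

set_option autoImplicit false

namespace Pool.Agent.MP_0ebce1_al

open CategoryTheory IsLocalRing TensorProduct

/-- a projective resolution, in terms of linear maps -/
structure Res (A : Type) [CommRing A] (K : ModuleCat.{0} A) where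
  F : ℕ → ModuleCat.{0} A
  proj : ∀ n, Module.Projective A (F n)
  d : ∀ n, F (n + 1) →ₗ[A] F n
  ε : F 0 →ₗ[A] K
  surj : Function.Surjective ε
  ex0 : Function.Exact (d 0) ε
  ex : ∀ n, Function.Exact (d (n + 1)) (d n)

variable {A : Type} [CommRing A]

/-- the chain complex -/
noncomputable def Res.cx {K : ModuleCat.{0} A} (P : Res A K) : ChainComplex (ModuleCat.{0} A) ℕ :=
  ChainComplex.of P.F (fun n => ModuleCat.ofHom (P.d n)) (fun n => by
    ext x
    exact (P.ex n).apply_apply_eq_zero x)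

lemma Res.cx_d {K : ModuleCat.{0} A} (P : Res A K) (n : ℕ) :
    P.cx.d (n + 1) n = ModuleCat.ofHom (P.d n) :=
  ChainComplex.of_d P.F (fun n => (ModuleCat.ofHom (P.d n) : P.F (n + 1) ⟶ P.F n)) n

/-- the projective resolution -/
noncomputable def Res.toPR {K : ModuleCat.{0} A} (P : Res A K) : ProjectiveResolution K where
  complex := P.cx
  projective n := by
    have := P.proj n
    exact (inferInstance : Projective (ModuleCat.of A (P.F n)))
  π := (ChainComplex.toSingle₀Equiv _ _).symm ⟨ModuleCat.ofHom P.ε, by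
    rw [P.cx_d 0]
    ext x
    exact P.ex0.apply_apply_eq_zero x⟩
  quasiIso := ⟨fun n => by
    cases n with
    | zero =>
      rw [ChainComplex.quasiIsoAt₀_iff, ShortComplex.quasiIso_iff_of_zeros']
      · refine ⟨?_, ?_⟩
        · rw [ShortComplex.ShortExact.moduleCat_exact_iff_function_exact]
          simp [P.cx_d 0]
          exact P.ex0
        · rw [ModuleCat.epi_iff_surjective]
          simp
          exact P.surj
      all_goals rfl
    | succ n =>
      rw [quasiIsoAt_iff_exactAt']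
      · rw [HomologicalComplex.exactAt_iff' _ (n + 2) (n + 1) n (by simp) (by simp),
          ShortComplex.ShortExact.moduleCat_exact_iff_function_exact]
        simp [P.cx_d]
        exact P.ex n
      · apply ChainComplex.exactAt_succ_single_obj⟩

lemma card_homology (S : ShortComplex (ModuleCat.{0} A)) :
    Nat.card (S.homology : ModuleCat.{0} A) * Nat.card (LinearMap.range S.f.hom) =
      Nat.card (LinearMap.ker S.g.hom) := by
  rw [Nat.card_congr S.moduleCatHomologyIso.toLinearEquiv.toEquiv,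
    Submodule.card_eq_card_quotient_mul_card (LinearMap.range S.moduleCatToCycles), mul_comm]
  congr 1
  refine Nat.card_congr ⟨fun x => ⟨⟨x.1, ?_⟩, ?_⟩, fun x => ⟨x.1.1, ?_⟩, fun x => rfl, fun x => rfl⟩
  · obtain ⟨y, hy⟩ := x.2
    rw [← hy]
    exact S.moduleCat_zero_apply y
  · obtain ⟨y, hy⟩ := x.2
    exact ⟨y, Subtype.ext hy⟩
  · obtain ⟨y, hy⟩ := x.2
    exact ⟨y, congrArg Subtype.val hy⟩

/-- the underlying type of a Tor module -/
abbrev TorT (M K : ModuleCat.{0} A) (n : ℕ) : Type := ((Tor (ModuleCat.{0} A) n).obj M).obj K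

lemma Res.card_tor_succ {K : ModuleCat.{0} A} (P : Res A K) (M : ModuleCat.{0} A) (n : ℕ) :
    Nat.card (TorT M K (n + 1)) * Nat.card (LinearMap.range ((P.d (n + 1)).lTensor M)) =
      Nat.card (LinearMap.ker ((P.d n).lTensor M)) := by
  set G := (MonoidalCategory.tensoringLeft (ModuleCat.{0} A)).obj M with hG
  have e1 := (P.toPR.isoLeftDerivedObj G (n + 1)) ≪≫
    ((G.mapHomologicalComplex _).obj P.cx).homologyIsoSc' (n + 2) (n + 1) n (by simp) (by simp)
  have h := card_homology (((G.mapHomologicalComplex _).obj P.cx).sc' (n + 2) (n + 1) n)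
  rw [← Nat.card_congr e1.toLinearEquiv.toEquiv] at h
  have h1 : (((G.mapHomologicalComplex _).obj P.cx).sc' (n + 2) (n + 1) n).f.hom =
      (P.d (n + 1)).lTensor M := by
    change (G.map (P.cx.d (n + 2) (n + 1))).hom = _
    rw [P.cx_d]
    rfl
  have h2 : (((G.mapHomologicalComplex _).obj P.cx).sc' (n + 2) (n + 1) n).g.hom =
      (P.d n).lTensor M := by
    change (G.map (P.cx.d (n + 1) n)).hom = _
    rw [P.cx_d]
    rfl
  rw [h1, h2] at h
  exact h

lemma Res.card_tor_zero {K : ModuleCat.{0} A} (P : Res A K) (M : ModuleCat.{0} A) :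
    Nat.card (TorT M K 0) * Nat.card (LinearMap.range ((P.d 0).lTensor M)) =
      Nat.card (M ⊗[A] P.F 0) := by
  set G := (MonoidalCategory.tensoringLeft (ModuleCat.{0} A)).obj M with hG
  have e1 := (P.toPR.isoLeftDerivedObj G 0) ≪≫
    ((G.mapHomologicalComplex _).obj P.cx).homologyIsoSc' 1 0 0 (by simp) (by simp)
  have h := card_homology (((G.mapHomologicalComplex _).obj P.cx).sc' 1 0 0)
  rw [← Nat.card_congr e1.toLinearEquiv.toEquiv] at h
  have h1 : (((G.mapHomologicalComplex _).obj P.cx).sc' 1 0 0).f.hom = (P.d 0).lTensor M := by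
    change (G.map (P.cx.d 1 0)).hom = _
    rw [P.cx_d]
    rfl
  have h2 : (((G.mapHomologicalComplex _).obj P.cx).sc' 1 0 0).g.hom = 0 := by
    change (G.map (P.cx.d 0 0)).hom = _
    rw [P.cx.shape 0 0 (by simp), G.map_zero]
    rfl
  rw [h1, h2, LinearMap.ker_zero] at h
  exact h.trans (Nat.card_congr Submodule.topEquiv.toEquiv)

/-- prepend a step to a resolution of a syzygy -/
noncomputable def Res.cons {K L : ModuleCat.{0} A} (P : Res A L) (F₀ : ModuleCat.{0} A)
    [hF : Module.Projective A F₀] (p : F₀ →ₗ[A] K) (hp : Function.Surjective p) (i : L →ₗ[A] F₀)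
    (hi : Function.Injective i) (hex : Function.Exact i p) : Res A K where
  F n := Nat.casesOn n F₀ P.F
  proj n := by
    cases n with
    | zero => exact hF
    | succ n => exact P.proj n
  d n := match n with
    | 0 => i ∘ₗ P.ε
    | n + 1 => P.d n
  ε := p
  surj := hp
  ex0 := fun y => by
    rw [hex y]
    constructor
    · rintro ⟨x, rfl⟩
      obtain ⟨z, rfl⟩ := P.surj x
      exact ⟨z, rfl⟩
    · rintro ⟨z, rfl⟩
      exact ⟨_, rfl⟩
  ex n := match n with
    | 0 => fun y => by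
      rw [← P.ex0 y]
      exact map_eq_zero_iff i hi
    | n + 1 => P.ex n

lemma nonempty_res (K : ModuleCat.{0} A) : Nonempty (Res A K) := by
  let P := ProjectiveResolution.of K
  refine ⟨⟨P.complex.X, fun n => ?_, fun n => (P.complex.d (n + 1) n).hom, (P.π.f 0).hom,
    ?_, ?_, fun n => ?_⟩⟩
  · exact (IsProjective.iff_projective _).2 (P.projective n)
  · exact (ModuleCat.epi_iff_surjective (P.π.f 0)).1 inferInstance
  · exact (ShortComplex.ShortExact.moduleCat_exact_iff_function_exact _).1 P.exact₀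
  · exact (ShortComplex.ShortExact.moduleCat_exact_iff_function_exact _).1 (P.exact_succ n)

lemma card_eq_two_pow [IsLocalRing A] (hA : Nat.card (ResidueField A) = 2) (M : Type)
    [AddCommGroup M] [Module A M] [Finite M] :
    Nat.card M = 2 ^ (Module.length A M).toNat := by
  have hfin : IsFiniteLength A M := by
    rw [isFiniteLength_iff_isNoetherian_isArtinian]
    exact ⟨inferInstance, inferInstance⟩
  induction hfin with
  | of_subsingleton => simp
  | @of_simple_quotient M _ _ N _ hN ih =>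
    have h1 := Module.length_eq_add_of_exact N.subtype N.mkQ N.injective_subtype
      N.mkQ_surjective (LinearMap.exact_subtype_mkQ N)
    obtain ⟨m, hm, ⟨e⟩⟩ := isSimpleModule_iff_quot_maximal.1 ‹IsSimpleModule A (M ⧸ N)›
    rw [eq_maximalIdeal hm] at e
    have h2 : Nat.card (M ⧸ N) = 2 := (Nat.card_congr e.toEquiv).trans hA
    rw [Submodule.card_eq_card_quotient_mul_card N, h2, ih, h1, Module.length_eq_one A (M ⧸ N),
      ENat.toNat_add (Module.length_ne_top_iff.2 hN) (by simp), ENat.toNat_one, pow_succ]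

end Pool.Agent.MP_0ebce1_al

end MrgPart1

-- ======== part 2: formerly Pool.Agent.MP_0ebce1_al.Total
section MrgPart2

set_option autoImplicit false

namespace Pool.Agent.MP_0ebce1_al

open IsLocalRing TensorProduct

/-- the first factor -/
abbrev A1 : Type := Ex (ZMod 2)

/-- the ring of the counterexample -/
abbrev RR : Type := Ex A1

/-- generator -/
def gX : RR := Ex.C Ex.x
/-- generator -/
def gY : RR := Ex.C Ex.y
/-- generator -/
def gU : RR := Ex.x
/-- generator -/
def gV : RR := Ex.y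

lemma gXY : gX * gY = 0 := by rw [gX, gY, ← map_mul, Ex.x_mul_y, map_zero]
lemma gXX : gX * gX = gY * (gY * gY) := by
  rw [gX, gY, ← map_mul, Ex.x_mul_x, map_mul, map_mul]

section
variable {M : Type} [AddCommGroup M] [Module RR M]

/-- the differential of the resolution in four variables -/
def g4 (z : ℕ → ℕ → ℕ → ℕ → M) (i j k l : ℕ) : M :=
  g2 gX gY (fun a b => z a b k l) i j + g2 gU gV (z i j) k l

lemma g4_add (z w : ℕ → ℕ → ℕ → ℕ → M) (i j k l : ℕ) :
    g4 (fun a b c d => z a b c d + w a b c d) i j k l = g4 z i j k l + g4 w i j k l := by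
  simp only [g4, g2_add]
  abel

end

lemma g4_g4 (z : ℕ → ℕ → ℕ → ℕ → RR) (i j k l : ℕ) : g4 (g4 z) i j k l = 0 := by
  have e1 := g2_g2 gXY gXX (fun a b => z a b k l) i j
  have e2 := g2_g2 (s := gU) (t := gV) Ex.x_mul_y Ex.x_mul_x (z i j) k l
  have e3 : g2 gX gY (fun a b => g2 gU gV (z a b) k l) i j =
      g2 gU gV (fun c d => g2 gX gY (fun a b => z a b c d) i j) k l := by
    simp only [g2, smul_eq_mul]
    ring
  have e : g4 (g4 z) i j k l = g2 gX gY (g2 gX gY (fun a b => z a b k l)) i j +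
      g2 gX gY (fun a b => g2 gU gV (z a b) k l) i j +
      (g2 gU gV (fun c d => g2 gX gY (fun a b => z a b c d) i j) k l +
        g2 gU gV (g2 gU gV (z i j)) k l) := by
    rw [← g2_add, ← g2_add]
    rfl
  rw [e, e1, e2, e3, zero_add, add_zero, CharTwo.add_self_eq_zero]

lemma lc_map {B B' : Type} [CommRing B] [CommRing B'] (f : B →+* B') (s t : B) (i j : ℕ) :
    lc (f s) (f t) i j = f (lc s t i j) := by
  unfold lc
  split_ifs <;> simp

lemma rc_map {B B' : Type} [CommRing B] [CommRing B'] (f : B →+* B') (s t : B) (i j : ℕ) :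
    rc (f s) (f t) i j = f (rc s t i j) := by
  unfold rc
  split_ifs <;> simp

lemma c0_g2XY (z : ℕ → ℕ → RR) (i j : ℕ) :
    (g2 gX gY z i j).c0 = g2 (Ex.x : A1) Ex.y (fun a b => (z a b).c0) i j := by
  simp [g2, gX, gY, lc_map, rc_map]

lemma c0_g2UV (z : ℕ → ℕ → RR) (i j : ℕ) : (g2 gU gV z i j).c0 = 0 := by
  have h1 : ∀ a b, (lc gU gV a b).c0 = 0 := fun a b => by
    unfold lc gU gV
    split_ifs <;> simp
  have h2 : ∀ a b, (rc gU gV a b).c0 = 0 := fun a b => by
    unfold rc gU gV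
    split_ifs <;> simp
  simp [g2, h1, h2]

lemma exact4_aux (n : ℕ) (a : ℕ) (han : a ≤ n + 1) : ∀ z : ℕ → ℕ → ℕ → ℕ → RR,
    (∀ i j k l, i + j + k + l + 1 = n → g4 z i j k l = 0) →
    (∀ i j, i + j = n → (z i j 0 0).c0 = 0) →
    (∀ i j k l, i + j + k + l = n → a ≤ i + j → z i j k l = 0) →
    ∃ w : ℕ → ℕ → ℕ → ℕ → RR, ∀ i j k l, i + j + k + l = n → g4 w i j k l = z i j k l := by
  induction a with
  | zero =>
    intro z _ _ h
    refine ⟨fun _ _ _ _ => 0, fun i j k l hn => ?_⟩
    rw [h i j k l hn (Nat.zero_le _)]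
    simp [g4, g2]
  | succ a ih =>
    intro z hc h0 h
    have hrow : ∀ i j, ∃ w : ℕ → ℕ → RR, i + j = a → ∀ k l, a + k + l = n →
        g2 gU gV w k l = z i j k l := by
      intro i j
      by_cases hij : i + j = a ∧ a ≤ n
      · obtain ⟨w, hw⟩ := exact2 (n - a) (z i j) ⟨fun hb => h0 i j (by omega), fun k l hkl => by
          have h1 := hc i j k l (by omega)
          rw [g4, g2_zero gX gY (h (i + 1) j k l (by omega) (by omega))
            (h i (j + 1) k l (by omega) (by omega)), zero_add] at h1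
          exact h1⟩
        exact ⟨w, fun _ k l hkl => hw k l (by omega)⟩
      · exact ⟨fun _ _ => 0, fun h1 k l h2 => absurd ⟨h1, by omega⟩ hij⟩
    choose w hw using hrow
    set w' : ℕ → ℕ → ℕ → ℕ → RR := fun i j k l => if i + j = a then w i j k l else 0 with hw'
    have hvan : ∀ i j k l, i + j + k + l = n → a ≤ i + j →
        z i j k l + g4 w' i j k l = 0 := by
      intro i j k l hn ha
      have e1 : g2 gX gY (fun a b => w' a b k l) i j = 0 :=
        g2_zero gX gY (if_neg (by omega)) (if_neg (by omega))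
      rw [g4, e1, zero_add]
      rcases ha.eq_or_lt with he | hlt
      · have e2 : w' i j = w i j := by
          funext k l
          exact if_pos he.symm
        rw [e2, hw i j he.symm k l (by omega), CharTwo.add_self_eq_zero]
      · rw [h i j k l hn hlt, zero_add]
        exact g2_zero gU gV (if_neg (by omega)) (if_neg (by omega))
    obtain ⟨w'', hw''⟩ := ih (by omega) (fun i j k l => z i j k l + g4 w' i j k l)
      (fun i j k l hn => by rw [g4_add, hc i j k l hn, g4_g4, add_zero])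
      (fun i j hn => by
        rw [hvan i j 0 0 (by omega) (by omega)]
        rfl) hvan
    refine ⟨fun i j k l => w'' i j k l + w' i j k l, fun i j k l hn => ?_⟩
    rw [g4_add, hw'' i j k l hn, add_assoc, CharTwo.add_self_eq_zero, add_zero]

lemma exact4 (n : ℕ) (z : ℕ → ℕ → ℕ → ℕ → RR)
    (h0 : n = 0 → (z 0 0 0 0).c0.c0 = 0)
    (hc : ∀ i j k l, i + j + k + l + 1 = n → g4 z i j k l = 0) :
    ∃ w : ℕ → ℕ → ℕ → ℕ → RR, ∀ i j k l, i + j + k + l = n → g4 w i j k l = z i j k l := by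
  obtain ⟨w₀, hw₀⟩ := exact2 n (fun i j => (z i j 0 0).c0) ⟨h0, fun i j hij => by
    have h1 := congrArg Ex.c0 (hc i j 0 0 (by omega))
    rw [g4, Ex.add_c0, c0_g2UV, add_zero, c0_g2XY] at h1
    exact h1⟩
  set w' : ℕ → ℕ → ℕ → ℕ → RR := fun i j _ _ => Ex.C (w₀ i j) with hw'
  obtain ⟨w'', hw''⟩ := exact4_aux n (n + 1) le_rfl (fun i j k l => z i j k l + g4 w' i j k l)
    (fun i j k l hn => by rw [g4_add, hc i j k l hn, g4_g4, add_zero])
    (fun i j hn => by
      rw [Ex.add_c0, g4, Ex.add_c0, c0_g2UV, add_zero, c0_g2XY]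
      simp only [hw', Ex.C_c0]
      rw [hw₀ i j hn, CharTwo.add_self_eq_zero])
    (fun i j k l hn h => by omega)
  refine ⟨fun i j k l => w'' i j k l + w' i j k l, fun i j k l hn => ?_⟩
  rw [g4_add, hw'' i j k l hn, add_assoc, CharTwo.add_self_eq_zero, add_zero]

/-- the index set of the basis in degree `n` -/
def Ix (n : ℕ) : Type := {r : ℕ × ℕ × ℕ × ℕ // r.1 + r.2.1 + r.2.2.1 + r.2.2.2 = n}

instance (n : ℕ) : DecidableEq (Ix n) := Subtype.instDecidableEq

/-- the finite set of indices -/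
def ixSet (n : ℕ) : Finset (ℕ × ℕ × ℕ × ℕ) :=
  (Finset.range (n + 1) ×ˢ Finset.range (n + 1) ×ˢ Finset.range (n + 1) ×ˢ
    Finset.range (n + 1)).filter (fun r => r.1 + r.2.1 + r.2.2.1 + r.2.2.2 = n)

lemma mem_ixSet (n : ℕ) (r : ℕ × ℕ × ℕ × ℕ) :
    r ∈ ixSet n ↔ r.1 + r.2.1 + r.2.2.1 + r.2.2.2 = n := by
  simp only [ixSet, Finset.mem_filter, Finset.mem_product, Finset.mem_range]
  omega

instance (n : ℕ) : Fintype (Ix n) := Fintype.subtype (ixSet n) (mem_ixSet n)

lemma card_Ix (n : ℕ) : Fintype.card (Ix n) = (ixSet n).card :=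
  Fintype.subtype_card (ixSet n) (mem_ixSet n)

section
variable (M : Type) [AddCommGroup M] [Module RR M]

/-- extension by zero -/
def extz {n : ℕ} (z : Ix n → M) (i j k l : ℕ) : M :=
  if h : i + j + k + l = n then z ⟨(i, j, k, l), h⟩ else 0

/-- restriction to degree `n` -/
def restr (n : ℕ) (W : ℕ → ℕ → ℕ → ℕ → M) (r : Ix n) : M := W r.1.1 r.1.2.1 r.1.2.2.1 r.1.2.2.2

omit [Module RR M] in
lemma restr_extz {n : ℕ} (z : Ix n → M) : restr M n (extz M z) = z := by
  funext r
  exact dif_pos r.2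

/-- the differential with coefficients in `M` -/
def DD (n : ℕ) : (Ix (n + 1) → M) →ₗ[RR] (Ix n → M) where
  toFun z r :=
    lc gX gY (r.1.1 + 1) r.1.2.1 •
        z ⟨(r.1.1 + 1, r.1.2.1, r.1.2.2.1, r.1.2.2.2), by have := r.2; simp only; omega⟩ +
      rc gX gY r.1.1 (r.1.2.1 + 1) •
        z ⟨(r.1.1, r.1.2.1 + 1, r.1.2.2.1, r.1.2.2.2), by have := r.2; simp only; omega⟩ +
    (lc gU gV (r.1.2.2.1 + 1) r.1.2.2.2 •
        z ⟨(r.1.1, r.1.2.1, r.1.2.2.1 + 1, r.1.2.2.2), by have := r.2; simp only; omega⟩ +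
      rc gU gV r.1.2.2.1 (r.1.2.2.2 + 1) •
        z ⟨(r.1.1, r.1.2.1, r.1.2.2.1, r.1.2.2.2 + 1), by have := r.2; simp only; omega⟩)
  map_add' z w := by
    funext r
    simp only [Pi.add_apply, smul_add]
    abel
  map_smul' c z := by
    funext r
    simp only [Pi.smul_apply, smul_add, RingHom.id_apply, smul_comm c]

lemma DD_restr (n : ℕ) (W : ℕ → ℕ → ℕ → ℕ → M) :
    DD M n (restr M (n + 1) W) = restr M n (g4 W) := rfl

end

lemma mem_max (r : RR) : r ∈ maximalIdeal RR ↔ r.c0.c0 = 0 := by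
  rw [mem_maximalIdeal, mem_nonunits_iff, Ex.isUnit_iff, Ex.isUnit_iff, isUnit_iff_ne_zero,
    not_not]

lemma lc_mem {B : Type} [CommRing B] {I : Ideal B} {s t : B} (hs : s ∈ I) (ht : t ∈ I)
    (i j : ℕ) : lc s t i j ∈ I := by
  unfold lc
  split_ifs
  exacts [hs, ht, I.mul_mem_left _ ht]

lemma rc_mem {B : Type} [CommRing B] {I : Ideal B} {s t : B} (hs : s ∈ I) (ht : t ∈ I)
    (i j : ℕ) : rc s t i j ∈ I := by
  unfold rc
  split_ifs
  exacts [hs, I.mul_mem_left _ ht, ht]

lemma gX_mem : gX ∈ maximalIdeal RR := (mem_max _).2 rfl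
lemma gY_mem : gY ∈ maximalIdeal RR := (mem_max _).2 rfl
lemma gU_mem : gU ∈ maximalIdeal RR := (mem_max _).2 rfl
lemma gV_mem : gV ∈ maximalIdeal RR := (mem_max _).2 rfl

/-- the index of degree zero -/
def ix0 : Ix 0 := ⟨(0, 0, 0, 0), rfl⟩

lemma eq_ix0 (r : Ix 0) : r = ix0 := by
  obtain ⟨⟨i, j, k, l⟩, h⟩ := r
  simp only at h
  obtain rfl : i = 0 := by omega
  obtain rfl : j = 0 := by omega
  obtain rfl : k = 0 := by omega
  obtain rfl : l = 0 := by omega
  rfl

lemma DD_mem (M : Type) [AddCommGroup M] [Module RR M] (n : ℕ) (w : Ix (n + 1) → M) (r : Ix n) :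
    DD M n w r ∈ maximalIdeal RR • (⊤ : Submodule RR M) :=
  add_mem (add_mem (Submodule.smul_mem_smul (lc_mem gX_mem gY_mem _ _) trivial)
    (Submodule.smul_mem_smul (rc_mem gX_mem gY_mem _ _) trivial))
    (add_mem (Submodule.smul_mem_smul (lc_mem gU_mem gV_mem _ _) trivial)
    (Submodule.smul_mem_smul (rc_mem gU_mem gV_mem _ _) trivial))

lemma DD_exact0 (z : Ix 0 → RR) : z ix0 ∈ maximalIdeal RR ↔ z ∈ Set.range (DD RR 0) := by
  constructor
  · intro h
    obtain ⟨w, hw⟩ := exact4 0 (fun _ _ _ _ => z ix0) (fun _ => (mem_max _).1 h)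
      (fun i j k l hn => by omega)
    refine ⟨restr RR 1 w, ?_⟩
    rw [DD_restr]
    funext r
    rw [eq_ix0 r]
    exact hw 0 0 0 0 rfl
  · rintro ⟨w, rfl⟩
    simpa using DD_mem RR 0 w ix0

lemma DD_exact (n : ℕ) : Function.Exact (DD RR (n + 1)) (DD RR n) := by
  intro z
  constructor
  · intro h
    rw [← restr_extz RR z, DD_restr] at h
    obtain ⟨w, hw⟩ := exact4 (n + 1) (extz RR z) (fun h => by omega)
      (fun i j k l hn => congrFun h ⟨(i, j, k, l), by simp only; omega⟩)
    refine ⟨restr RR (n + 1 + 1) w, ?_⟩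
    rw [← restr_extz RR z, DD_restr]
    exact funext (fun r => hw _ _ _ _ r.2)
  · rintro ⟨w, rfl⟩
    rw [← restr_extz RR w, DD_restr, DD_restr]
    funext r
    exact g4_g4 (extz RR w) r.1.1 r.1.2.1 r.1.2.2.1 r.1.2.2.2

/-- the minimal resolution of the residue field of `RR` -/
noncomputable def resRR : Res RR (ModuleCat.of RR (ResidueField RR)) where
  F n := ModuleCat.of RR (Ix n → RR)
  proj n := (inferInstance : Module.Projective RR (Ix n → RR))
  d n := DD RR n
  ε := (Algebra.linearMap RR (ResidueField RR)) ∘ₗ LinearMap.proj ix0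
  surj := fun c => by
    obtain ⟨r, rfl⟩ := residue_surjective c
    exact ⟨fun _ => r, rfl⟩
  ex0 := fun z => (residue_eq_zero_iff (z ix0)).trans (DD_exact0 z)
  ex n := DD_exact n

section tensor

variable {A : Type} [CommRing A] {ι κ : Type} [Fintype ι] [Fintype κ] [DecidableEq ι]
  [DecidableEq κ] {M : Type} [AddCommGroup M] [Module A M]

lemma comm_sq (D : (κ → A) →ₗ[A] (ι → A)) (D' : (κ → M) →ₗ[A] (ι → M))
    (h : ∀ f m, D' (fun j => f j • m) = fun i => D f i • m) :
    (piScalarRight A A M ι).toLinearMap ∘ₗ D.lTensor M =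
      D' ∘ₗ (piScalarRight A A M κ).toLinearMap := by
  refine TensorProduct.ext' (fun m f => ?_)
  simp [h]

lemma card_range_lTensor (D : (κ → A) →ₗ[A] (ι → A)) (D' : (κ → M) →ₗ[A] (ι → M))
    (h : ∀ f m, D' (fun j => f j • m) = fun i => D f i • m) :
    Nat.card (LinearMap.range (D.lTensor M)) = Nat.card (LinearMap.range D') := by
  have h1 := congrArg LinearMap.range (comm_sq D D' h)
  rw [LinearMap.range_comp, LinearEquiv.range_comp] at h1
  rw [← h1]
  exact Nat.card_congr (Submodule.equivMapOfInjective _ (piScalarRight A A M ι).injective _).toEquiv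

lemma card_ker_lTensor (D : (κ → A) →ₗ[A] (ι → A)) (D' : (κ → M) →ₗ[A] (ι → M))
    (h : ∀ f m, D' (fun j => f j • m) = fun i => D f i • m) :
    Nat.card (LinearMap.ker (D.lTensor M)) = Nat.card (LinearMap.ker D') := by
  have h1 := congrArg LinearMap.ker (comm_sq D D' h)
  rw [LinearEquiv.ker_comp, LinearMap.ker_comp, Submodule.comap_equiv_eq_map_symm] at h1
  rw [h1]
  exact (Nat.card_congr
    (Submodule.equivMapOfInjective _ (piScalarRight A A M κ).symm.injective _).toEquiv).symm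

end tensor

section
variable (M : Type) [AddCommGroup M] [Module RR M]

lemma DD_smul (n : ℕ) (f : Ix (n + 1) → RR) (m : M) :
    DD M n (fun j => f j • m) = fun i => DD RR n f i • m := by
  funext r
  simp only [DD, LinearMap.coe_mk, AddHom.coe_mk, smul_eq_mul, add_smul, mul_smul]

lemma tor_succ (n : ℕ) :
    Nat.card (TorT (ModuleCat.of RR M) (ModuleCat.of RR (ResidueField RR)) (n + 1)) *
      Nat.card (LinearMap.range (DD M (n + 1))) = Nat.card (LinearMap.ker (DD M n)) := by
  rw [← card_range_lTensor _ _ (DD_smul M (n + 1)), ← card_ker_lTensor _ _ (DD_smul M n)]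
  exact resRR.card_tor_succ (ModuleCat.of RR M) n

lemma tor_zero :
    Nat.card (TorT (ModuleCat.of RR M) (ModuleCat.of RR (ResidueField RR)) 0) *
      Nat.card (LinearMap.range (DD M 0)) = Nat.card (Ix 0 → M) := by
  rw [← card_range_lTensor _ _ (DD_smul M 0),
    ← Nat.card_congr (piScalarRight RR RR M (Ix 0)).toEquiv]
  exact resRR.card_tor_zero (ModuleCat.of RR M)

end

end Pool.Agent.MP_0ebce1_al

end MrgPart2

-- marker of a merged file
example : 731051 + 123355 = 731051 + 123355 := rfl
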