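import Pool.Agent.MP_0ebce1_al.Data

set_option autoImplicit false

namespace Pool.Agent.MP_0ebce1_al

open IsLocalRing TensorProduct

/-- the left coefficient, as the number of a monomial -/
def lcN (s t tt i j : ℕ) : ℕ := if (i + j) % 2 = 0 then s else if j < i then t else tt

/-- the right coefficient, as the number of a monomial -/
def rcN (s t tt i j : ℕ) : ℕ := if (i + j) % 2 = 1 then s else if j ≤ i then tt else t

lemma smul_S3 (r : RR) (s : SS 3) : r • s = Ideal.Quotient.mk _ r * s := Algebra.smul_def r s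

lemma lcXY (i j : ℕ) : Ideal.Quotient.mk _ (lc gX gY i j) = mon (lcN 1 2 5 i j) := by
  unfold lc lcN
  split_ifs <;> rfl
lemma rcXY (i j : ℕ) : Ideal.Quotient.mk _ (rc gX gY i j) = mon (rcN 1 2 5 i j) := by
  unfold rc rcN
  split_ifs <;> rfl
lemma lcUV (i j : ℕ) : Ideal.Quotient.mk _ (lc gU gV i j) = mon (lcN 3 4 6 i j) := by
  unfold lc lcN
  split_ifs <;> rfl
lemma rcUV (i j : ℕ) : Ideal.Quotient.mk _ (rc gU gV i j) = mon (rcN 3 4 6 i j) := by
  unfold rc rcN
  split_ifs <;> rfl

/-- the number of an index -/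
def code (i j k l : ℕ) : ℕ := i + 6 * j + 36 * k + 216 * l

/-- one coordinate of the differential of a list of terms -/
def g4L (L : List (ℕ × ℕ)) (i j k l : ℕ) : List (ℕ × ℕ) :=
  (selM (lcN 1 2 5 (i + 1) j) (code (i + 1) j k l) L ++
    selM (rcN 1 2 5 i (j + 1)) (code i (j + 1) k l) L) ++
  (selM (lcN 3 4 6 (k + 1) l) (code i j (k + 1) l) L ++
    selM (rcN 3 4 6 k (l + 1)) (code i j k (l + 1)) L)

lemma g4_evalL (L : List (ℕ × ℕ)) (i j k l : ℕ) :
    g4 (fun a b c d => evalL L (code a b c d)) i j k l = evalL (g4L L i j k l) 0 := by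
  simp only [g4, g2, g4L, evalL_append, evalL_selM, smul_S3, lcXY, rcXY, lcUV, rcUV]

/-- the leading position of a stored vector -/
def lead (e : ℕ) : ℕ := 11 * (e / 16 % 2048) + e % 16

/-- check a list of kernel vectors -/
def chkKer (big n N : ℕ) : Bool :=
  allUpTo (fun t =>
    allUpTo (fun i => allUpTo (fun j => allUpTo (fun k =>
      Nat.beq (maskL (g4L (dec4 (dig 60 big t)) i j k (n - i - j - k))) 0)
        (n + 1 - i - j)) (n + 1 - i)) (n + 1) &&
    Nat.beq (maskL (dec4 (dig 60 big t)) >>> lead (dig 60 big t)) 1 &&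
    Nat.beq (lead (dig 60 big t) / 11 % 6 + lead (dig 60 big t) / 66 % 6 +
      lead (dig 60 big t) / 396 % 6 + lead (dig 60 big t) / 2376) (n + 1) &&
    (Nat.blt (lead (dig 60 big t)) (lead (dig 60 big (t + 1))) || Nat.ble N (t + 1))) N

lemma chkKer_spec {big n N : ℕ} (h : chkKer big n N = true) :
    2 ^ N ≤ Nat.card (LinearMap.ker (DD (SS 3) n)) := by
  refine card_ge_mask (fun r : Ix (n + 1) => code r.1.1 r.1.2.1 r.1.2.2.1 r.1.2.2.2)
    (LinearMap.ker (DD (SS 3) n)).toAddSubgroup (fun t => dec4 (dig 60 big t))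
    (fun t => lead (dig 60 big t)) N (fun t ht => ?_) (fun t ht => ?_)
  · have h1 := allUpTo_spec h t ht
    simp only [Bool.and_eq_true, Nat.beq_eq] at h1
    obtain ⟨⟨⟨h2, h3⟩, h4⟩, -⟩ := h1
    refine ⟨?_, h3, ⟨(lead (dig 60 big t) / 11 % 6, lead (dig 60 big t) / 66 % 6,
      lead (dig 60 big t) / 396 % 6, lead (dig 60 big t) / 2376), h4⟩, ?_⟩
    · change DD (SS 3) n (restr (SS 3) (n + 1)
        (fun a b c d => evalL (dec4 (dig 60 big t)) (code a b c d))) = 0
      rw [DD_restr]
      funext ⟨⟨i, j, k, l⟩, hr⟩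
      simp only at hr
      have h5 := allUpTo_spec (allUpTo_spec (allUpTo_spec h2 i (by omega)) j (by omega)) k
        (by omega)
      rw [Nat.beq_eq, show n - i - j - k = l by omega] at h5
      exact (g4_evalL _ i j k l).trans (evalL_eq_zero h5 0)
    · simp only [code]
      omega
  · have h1 := allUpTo_spec h t (by omega)
    simp only [Bool.and_eq_true, Bool.or_eq_true, Nat.blt_eq, Nat.ble_eq] at h1
    exact h1.2.resolve_right (by omega)

lemma ker0 : chkKer kerD0 0 34 = true := by decide +kernel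
lemma ker1 : chkKer kerD1 1 82 = true := by decide +kernel
lemma ker2 : chkKer kerD2 2 157 = true := by decide +kernel
lemma ker3 : chkKer kerD3 3 270 = true := by decide +kernel
lemma ker4 : chkKer kerD4 4 424 = true := by decide +kernel

end Pool.Agent.MP_0ebce1_al
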