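import Mathlib.RingTheory.PowerSeries.Inverse
import Mathlib.Data.Rat.Star
import Mathlib.RingTheory.SimpleRing.Principal
import Pool.Agent.MP_0ebce1_al.Total

set_option autoImplicit false

namespace Pool.Agent.MP_0ebce1_al

open IsLocalRing TensorProduct

/-- the coordinates of degree at most two -/
def cf' (μ : ℕ) (r : RR) : ZMod 2 :=
  match μ with
  | 0 => r.c0.c0
  | 1 => r.c0.c1
  | 2 => r.c0.c2
  | 3 => r.c1.c0
  | 4 => r.c2.c0
  | 5 => r.c0.c3
  | 6 => r.c3.c0
  | 7 => r.c1.c1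
  | 8 => r.c2.c1
  | 9 => r.c1.c2
  | 10 => r.c2.c2
  | _ => 0

/-- the coordinates as additive maps -/
def cf (μ : ℕ) : RR →+ ZMod 2 where
  toFun := cf' μ
  map_zero' := by unfold cf'; split <;> rfl
  map_add' a b := by unfold cf'; split <;> rfl

lemma cf_apply (μ : ℕ) (r : RR) : cf μ r = cf' μ r := rfl

lemma forall_lt_five (p : ℕ → Prop) : (∀ μ < 5, p μ) ↔ p 0 ∧ p 1 ∧ p 2 ∧ p 3 ∧ p 4 := by
  constructor
  · exact fun h => ⟨h 0 (by omega), h 1 (by omega), h 2 (by omega), h 3 (by omega), h 4 (by omega)⟩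
  · rintro ⟨h0, h1, h2, h3, h4⟩ μ h
    interval_cases μ <;> assumption

lemma forall_lt_eleven (p : ℕ → Prop) : (∀ μ < 11, p μ) ↔
    p 0 ∧ p 1 ∧ p 2 ∧ p 3 ∧ p 4 ∧ p 5 ∧ p 6 ∧ p 7 ∧ p 8 ∧ p 9 ∧ p 10 := by
  constructor
  · exact fun h => ⟨h 0 (by omega), h 1 (by omega), h 2 (by omega), h 3 (by omega),
      h 4 (by omega), h 5 (by omega), h 6 (by omega), h 7 (by omega), h 8 (by omega),
      h 9 (by omega), h 10 (by omega)⟩
  · rintro ⟨h0, h1, h2, h3, h4, h5, h6, h7, h8, h9, h10⟩ μ h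
    interval_cases μ <;> assumption

lemma max_decomp {r : RR} (h : r ∈ maximalIdeal RR) :
    ∃ a b c d : RR, r = gX * a + gY * b + gU * c + gV * d := by
  rw [mem_max] at h
  refine ⟨Ex.C (Ex.C r.c0.c1), Ex.C ⟨r.c0.c2, 0, r.c0.c3, r.c0.c4, 0⟩, Ex.C r.c1,
    ⟨r.c2, 0, r.c3, r.c4, 0⟩, ?_⟩
  ext <;> simp [gX, gY, gU, gV, h]

lemma mem_m2 (r : RR) : r ∈ maximalIdeal RR ^ 2 ↔ ∀ μ < 5, cf μ r = 0 := by
  constructor
  · intro h
    rw [pow_two] at h
    refine Submodule.mul_induction_on h (fun a ha b hb => ?_) (fun a b ha hb μ hμ => ?_)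
    · rw [mem_max] at ha hb
      simp [forall_lt_five, cf_apply, cf', ha, hb]
    · rw [map_add, ha μ hμ, hb μ hμ, add_zero]
  · intro h
    simp only [forall_lt_five, cf_apply, cf'] at h
    obtain ⟨h0, h1, h2, h3, h4⟩ := h
    have e : r = gY * Ex.C ⟨0, 0, r.c0.c3, r.c0.c4, 0⟩ + gU * Ex.C r.c1 +
        gV * ⟨r.c2, 0, r.c3, r.c4, 0⟩ := by
      ext <;> simp [gY, gU, gV, h0, h1, h2]
    rw [e, pow_two]
    exact add_mem (add_mem (Ideal.mul_mem_mul gY_mem ((mem_max _).2 rfl))
      (Ideal.mul_mem_mul gU_mem ((mem_max _).2 h3))) (Ideal.mul_mem_mul gV_mem ((mem_max _).2 h4))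

lemma mem_m3 (r : RR) : r ∈ maximalIdeal RR ^ 3 ↔ ∀ μ < 11, cf μ r = 0 := by
  constructor
  · intro h
    rw [pow_succ'] at h
    refine Submodule.mul_induction_on h (fun a ha b hb => ?_) (fun a b ha hb μ hμ => ?_)
    · rw [mem_max] at ha
      rw [mem_m2] at hb
      simp only [forall_lt_five, cf_apply, cf'] at hb
      obtain ⟨h0, h1, h2, h3, h4⟩ := hb
      simp [forall_lt_eleven, cf_apply, cf', ha, h0, h1, h2, h3, h4]
    · rw [map_add, ha μ hμ, hb μ hμ, add_zero]
  · intro h
    simp only [forall_lt_eleven, cf_apply, cf'] at h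
    obtain ⟨h0, h1, h2, h3, h4, h5, h6, h7, h8, h9, h10⟩ := h
    have e : r = gY * Ex.C ⟨0, 0, 0, r.c0.c4, 0⟩ + gU * Ex.C r.c1 +
        gV * ⟨r.c2, 0, r.c3, r.c4, 0⟩ := by
      ext <;> simp [gY, gU, gV, h0, h1, h2, h5]
    rw [e, pow_succ']
    refine add_mem (add_mem (Ideal.mul_mem_mul gY_mem ((mem_m2 _).2 ?_))
      (Ideal.mul_mem_mul gU_mem ((mem_m2 _).2 ?_))) (Ideal.mul_mem_mul gV_mem ((mem_m2 _).2 ?_))
    all_goals simp [forall_lt_five, cf_apply, cf', h3, h4, h6, h7, h8, h9, h10]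

/-- the monomials of degree at most two -/
def monR (μ : ℕ) : RR :=
  match μ with
  | 0 => 1
  | 1 => gX
  | 2 => gY
  | 3 => gU
  | 4 => gV
  | 5 => gY * gY
  | 6 => gV * gV
  | 7 => gX * gU
  | 8 => gX * gV
  | 9 => gY * gU
  | 10 => gY * gV
  | _ => 0

lemma cf_monR : ∀ μ < 11, ∀ ν < 11, cf μ (monR ν) = if μ = ν then 1 else 0 := by
  decide +kernel

lemma card_quot (I : Ideal RR) (n : ℕ) (hn : n ≤ 11) (h : ∀ r, r ∈ I ↔ ∀ μ < n, cf μ r = 0) :
    Nat.card (RR ⧸ I) = 2 ^ n := by
  let f : RR →+ (Fin n → ZMod 2) := AddMonoidHom.pi (fun μ => cf μ.val)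
  have hs : Function.Surjective f := by
    intro c
    refine ⟨∑ ν : Fin n, (c ν).val • monR ν.val, funext (fun μ => ?_)⟩
    change cf μ.val _ = _
    rw [map_sum, Finset.sum_eq_single μ]
    · rw [map_nsmul, cf_monR μ (by omega) μ (by omega), if_pos rfl]
      simp
    · intro ν _ hν
      rw [map_nsmul, cf_monR μ (by omega) ν (by omega), if_neg (fun e => hν (Fin.ext e.symm))]
      simp
    · simp
  have hk : f.ker = I.toAddSubgroup := by
    ext r
    rw [AddMonoidHom.mem_ker, Submodule.mem_toAddSubgroup, h, funext_iff]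
    exact ⟨fun h1 μ hμ => h1 ⟨μ, hμ⟩, fun h1 μ => h1 μ.val μ.2⟩
  have e := (QuotientAddGroup.quotientAddEquivOfEq hk).symm.trans
    (QuotientAddGroup.quotientKerEquivOfSurjective f hs)
  exact (Nat.card_congr e.toEquiv).trans (by simp)

lemma card_res : Nat.card (ResidueField RR) = 2 :=
  card_quot (maximalIdeal RR) 1 (by omega) (fun r => by
    rw [mem_max]
    exact ⟨fun h μ hμ => by
      obtain rfl : μ = 0 := by omega
      exact h, fun h => h 0 (by omega)⟩)

/-- the quotient by a power of the maximal ideal -/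
abbrev SS (j : ℕ) : Type := RR ⧸ maximalIdeal RR ^ j

lemma card_S2 : Nat.card (SS 2) = 2 ^ 5 := card_quot _ 5 (by omega) mem_m2

lemma card_S3 : Nat.card (SS 3) = 2 ^ 11 := card_quot _ 11 le_rfl mem_m3

instance (j : ℕ) : Nontrivial (SS (j + 1)) :=
  Ideal.Quotient.nontrivial_iff.2 (fun h => (maximalIdeal.isMaximal RR).ne_top
    (top_le_iff.1 (h ▸ Ideal.pow_le_self (Nat.succ_ne_zero j))))

instance (j : ℕ) : IsLocalRing (SS (j + 1)) :=
  IsLocalRing.of_surjective' (Ideal.Quotient.mk _) Ideal.Quotient.mk_surjective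

instance (j : ℕ) : Finite (SS j) := Finite.of_surjective _ Ideal.Quotient.mk_surjective

instance (j : ℕ) : IsLocalHom (Ideal.Quotient.mk (maximalIdeal RR ^ (j + 1))) :=
  IsLocalHom.of_surjective _ Ideal.Quotient.mk_surjective

lemma mk_mem_max (j : ℕ) (r : RR) :
    Ideal.Quotient.mk (maximalIdeal RR ^ (j + 1)) r ∈ maximalIdeal (SS (j + 1)) ↔
      r ∈ maximalIdeal RR := by
  rw [mem_maximalIdeal, mem_maximalIdeal, mem_nonunits_iff, mem_nonunits_iff, isUnit_map_iff]

lemma card_resS (j : ℕ) : Nat.card (ResidueField (SS (j + 1))) = 2 := by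
  refine (Nat.card_eq_of_bijective
    (ResidueField.map (Ideal.Quotient.mk (maximalIdeal RR ^ (j + 1))))
    ⟨RingHom.injective _, fun c => ?_⟩).symm.trans card_res
  obtain ⟨s, rfl⟩ := residue_surjective c
  obtain ⟨r, rfl⟩ := Ideal.Quotient.mk_surjective s
  exact ⟨residue RR r, rfl⟩

section
variable {A : Type} [CommRing A] [IsLocalRing A] (hA : Nat.card (ResidueField A) = 2)
  (M : Type) [AddCommGroup M] [Module A M] (n : ℕ)
include hA

lemma card_tor {a b : ℕ} (hb : b ≠ 0)
    (h : Nat.card (TorT (ModuleCat.of A M) (ModuleCat.of A (ResidueField A)) n) * a = b) :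
    2 ^ betti A M n * a = b := by
  have : Finite (TorT (ModuleCat.of A M) (ModuleCat.of A (ResidueField A)) n) :=
    Nat.finite_of_card_ne_zero (fun e => hb (by rw [← h, e, zero_mul]))
  rw [card_eq_two_pow hA] at h
  exact h

lemma betti_add {a b : ℕ}
    (h : Nat.card (TorT (ModuleCat.of A M) (ModuleCat.of A (ResidueField A)) n) * 2 ^ a = 2 ^ b) :
    betti A M n + a = b := by
  have := card_tor hA M n (by positivity) h
  rw [← pow_add] at this
  exact Nat.pow_right_injective le_rfl this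

end

lemma card_mul_card {A E F : Type} [CommRing A] [AddCommGroup E] [Module A E] [AddCommGroup F]
    [Module A F] (f : E →ₗ[A] F) :
    Nat.card (LinearMap.ker f) * Nat.card (LinearMap.range f) = Nat.card E := by
  rw [Submodule.card_eq_card_quotient_mul_card (LinearMap.ker f),
    Nat.card_congr f.quotKerEquivRange.toEquiv]

lemma DD_res (n : ℕ) : DD (ResidueField RR) n = 0 := by
  refine LinearMap.ext (fun z => funext (fun r => ?_))
  have h := DD_mem (ResidueField RR) n z r
  refine Submodule.smul_induction_on (p := fun c => c = 0) h (fun a ha c _ => ?_)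
    (fun a b ha hb => by rw [ha, hb, add_zero])
  rw [Algebra.smul_def, ResidueField.algebraMap_eq, (residue_eq_zero_iff a).2 ha, zero_mul]

lemma betti_RR (n : ℕ) : betti RR (ResidueField RR) n = Fintype.card (Ix n) := by
  refine betti_add card_res _ n (a := 0) ?_
  cases n with
  | zero =>
    have h := tor_zero (ResidueField RR)
    rw [DD_res, LinearMap.range_zero, Nat.card_fun, card_res] at h
    simpa using h
  | succ n =>
    have h := tor_succ (ResidueField RR) n
    rw [DD_res, DD_res, LinearMap.range_zero, LinearMap.ker_zero,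
      Nat.card_congr Submodule.topEquiv.toEquiv, Nat.card_fun, card_res] at h
    simpa using h

/-- the image of the maximal ideal in `SS 2` -/
def mS2 : Submodule RR (SS 2) := (maximalIdeal (SS 2)).restrictScalars RR

lemma card_mS2 : Nat.card (maximalIdeal (SS 2)) = 2 ^ 4 := by
  have h := Submodule.card_eq_card_quotient_mul_card (maximalIdeal (SS 2))
  have h2 : Nat.card (SS 2 ⧸ maximalIdeal (SS 2)) = 2 := card_resS 1
  rw [card_S2, h2] at h
  omega

lemma mul_zero_S2 {a : RR} (ha : a ∈ maximalIdeal RR) {s : SS 2} (hs : s ∈ maximalIdeal (SS 2)) :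
    a • s = 0 := by
  obtain ⟨r, rfl⟩ := Ideal.Quotient.mk_surjective s
  rw [mk_mem_max 1] at hs
  change Ideal.Quotient.mk _ (a * r) = 0
  rw [Ideal.Quotient.eq_zero_iff_mem, pow_two]
  exact Ideal.mul_mem_mul ha hs

lemma g4_mk (I : Ideal RR) (W : ℕ → ℕ → ℕ → ℕ → RR) (i j k l : ℕ) :
    g4 (fun a b c d => Ideal.Quotient.mk I (W a b c d)) i j k l =
      Ideal.Quotient.mk I (g4 W i j k l) := by
  simp only [g4, g2, map_add, smul_eq_mul, map_mul]
  rfl

lemma ker_DD_S2 (n : ℕ) :
    LinearMap.ker (DD (SS 2) n) = Submodule.pi Set.univ (fun _ => mS2) := by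
  ext z
  rw [LinearMap.mem_ker, Submodule.mem_pi]
  constructor
  · intro h
    choose W hW using fun i j k l => Ideal.Quotient.mk_surjective (extz (SS 2) z i j k l)
    have e : extz (SS 2) z = fun a b c d => Ideal.Quotient.mk _ (W a b c d) := by
      funext a b c d
      exact (hW a b c d).symm
    rw [← restr_extz (SS 2) z, DD_restr, e] at h
    have h1 : ∀ i j k l, i + j + k + l = n → ∀ μ < 5, cf μ (g4 W i j k l) = 0 := by
      intro i j k l hn
      have : g4 (fun a b c d => Ideal.Quotient.mk (maximalIdeal RR ^ 2) (W a b c d)) i j k l = 0 :=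
        congrFun h ⟨(i, j, k, l), hn⟩
      rw [g4_mk, Ideal.Quotient.eq_zero_iff_mem, mem_m2] at this
      exact this
    rintro ⟨⟨i, j, k, l⟩, hn⟩ -
    simp only at hn
    have h2 : z ⟨(i, j, k, l), hn⟩ = Ideal.Quotient.mk _ (W i j k l) := by
      rw [hW, extz, dif_pos hn]
    change z ⟨(i, j, k, l), hn⟩ ∈ maximalIdeal (SS 2)
    rw [h2, mk_mem_max 1, mem_max]
    by_cases hij : i + j = 0
    · refine g2_inj gU gV (cf 3) (cf 4) (fun w => w.c0.c0) ?_ ?_ ?_ ?_ ?_ (W i j) n ?_ k l
        (by omega)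
      iterate 5 intro w; simp [cf_apply, cf', gU, gV]
      intro c d hcd
      have h3 := h1 i j c d (by omega) 3 (by omega)
      have h4 := h1 i j c d (by omega) 4 (by omega)
      have h5 : ∀ a b w, (lc gX gY a b * w).c1.c0 = 0 ∧ (lc gX gY a b * w).c2.c0 = 0 ∧
          (rc gX gY a b * w).c1.c0 = 0 ∧ (rc gX gY a b * w).c2.c0 = 0 := by
        intro a b w
        unfold lc rc
        split_ifs <;> simp [gX, gY]
      rw [g4, map_add] at h3 h4
      have h6 : cf 3 (g2 gX gY (fun a b => W a b c d) i j) = 0 := by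
        simp only [cf_apply, cf', g2, smul_eq_mul, Ex.add_c1, Ex.add_c0, h5, add_zero]
      have h7 : cf 4 (g2 gX gY (fun a b => W a b c d) i j) = 0 := by
        simp only [cf_apply, cf', g2, smul_eq_mul, Ex.add_c2, Ex.add_c0, h5, add_zero]
      rw [h6, zero_add] at h3
      rw [h7, zero_add] at h4
      exact ⟨h3, h4⟩
    · refine g2_inj gX gY (cf 1) (cf 2) (fun w => w.c0.c0) ?_ ?_ ?_ ?_ ?_
        (fun a b => W a b k l) (i + j - 1) ?_ i j (by omega)
      iterate 5 intro w; simp [cf_apply, cf', gX, gY]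
      intro a b hab
      have h3 := h1 a b k l (by omega) 1 (by omega)
      have h4 := h1 a b k l (by omega) 2 (by omega)
      rw [g4, map_add] at h3 h4
      have h6 : cf 1 (g2 gU gV (W a b) k l) = 0 := by
        simp only [cf_apply, cf', c0_g2UV, Ex.zero_c1]
      have h7 : cf 2 (g2 gU gV (W a b) k l) = 0 := by
        simp only [cf_apply, cf', c0_g2UV, Ex.zero_c2]
      rw [h6, add_zero] at h3
      rw [h7, add_zero] at h4
      exact ⟨h3, h4⟩
  · intro h
    funext r
    simp only [DD, LinearMap.coe_mk, AddHom.coe_mk, Pi.zero_apply]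
    rw [mul_zero_S2 (lc_mem gX_mem gY_mem _ _) (h _ trivial),
      mul_zero_S2 (rc_mem gX_mem gY_mem _ _) (h _ trivial),
      mul_zero_S2 (lc_mem gU_mem gV_mem _ _) (h _ trivial),
      mul_zero_S2 (rc_mem gU_mem gV_mem _ _) (h _ trivial)]
    simp

lemma card_pi {A M ι : Type} [CommRing A] [AddCommGroup M] [Module A M] [Fintype ι]
    (N : Submodule A M) :
    Nat.card (Submodule.pi (Set.univ : Set ι) (fun _ => N)) = Nat.card N ^ Fintype.card ι := by
  rw [← Nat.card_eq_fintype_card, ← Nat.card_fun]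
  exact Nat.card_congr
    ⟨fun z i => ⟨z.1 i, z.2 i trivial⟩, fun z => ⟨fun i => z i, fun i _ => (z i).2⟩,
      fun _ => rfl, fun _ => rfl⟩

lemma card_ker_S2 (n : ℕ) :
    Nat.card (LinearMap.ker (DD (SS 2) n)) = 2 ^ (4 * Fintype.card (Ix (n + 1))) := by
  rw [ker_DD_S2, card_pi, pow_mul]
  congr 1
  exact card_mS2

lemma card_range_S2 (n : ℕ) :
    Nat.card (LinearMap.range (DD (SS 2) n)) = 2 ^ Fintype.card (Ix (n + 1)) := by
  have h := card_mul_card (DD (SS 2) n)
  rw [card_ker_S2, Nat.card_fun, card_S2, Nat.card_eq_fintype_card (α := Ix (n + 1)), ← pow_mul,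
    show 5 * Fintype.card (Ix (n + 1)) = 4 * Fintype.card (Ix (n + 1)) + Fintype.card (Ix (n + 1))
      by ring, pow_add] at h
  exact Nat.eq_of_mul_eq_mul_left (by positivity) h

lemma card_Ix0 : Fintype.card (Ix 0) = 1 := by rw [card_Ix]; decide +kernel
lemma card_Ix1 : Fintype.card (Ix 1) = 4 := by rw [card_Ix]; decide +kernel
lemma card_Ix2 : Fintype.card (Ix 2) = 10 := by rw [card_Ix]; decide +kernel
lemma card_Ix3 : Fintype.card (Ix 3) = 20 := by rw [card_Ix]; decide +kernel
lemma card_Ix4 : Fintype.card (Ix 4) = 35 := by rw [card_Ix]; decide +kernel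
lemma card_Ix5 : Fintype.card (Ix 5) = 56 := by rw [card_Ix]; decide +kernel

lemma betti_S2_zero : betti RR (SS 2) 0 = 1 := by
  have h := tor_zero (SS 2)
  rw [card_range_S2, Nat.card_fun, card_S2, Nat.card_eq_fintype_card (α := Ix 0), card_Ix0,
    card_Ix1, pow_one] at h
  have := betti_add card_res _ 0 h
  omega

lemma betti_S2_succ (n : ℕ) :
    betti RR (SS 2) (n + 1) + Fintype.card (Ix (n + 2)) = 4 * Fintype.card (Ix (n + 1)) := by
  have h := tor_succ (SS 2) n
  rw [card_range_S2, card_ker_S2] at h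
  exact betti_add card_res _ _ h

/-- the differential of the resolution of the residue field of `SS 2` -/
noncomputable def D2 (M : Type) [AddCommGroup M] [Module (SS 2) M] (n : ℕ) :
    ((Fin 4 × (Fin n → Fin 4)) → M) →ₗ[SS 2] ((Fin n → Fin 4) → M) where
  toFun z w := ∑ a : Fin 4, Ideal.Quotient.mk (maximalIdeal RR ^ 2) (monR (a.val + 1)) • z (a, w)
  map_add' z z' := by
    funext w
    simp only [Pi.add_apply, smul_add, Finset.sum_add_distrib]
  map_smul' c z := by
    funext w
    simp only [Pi.smul_apply, RingHom.id_apply, Finset.smul_sum, smul_comm c]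

/-- words of length `n + 1` -/
def wordEquiv (n : ℕ) : (Fin (n + 1) → Fin 4) ≃ Fin 4 × (Fin n → Fin 4) :=
  (Fin.consEquiv (fun _ => Fin 4)).symm

/-- the differential, on words -/
noncomputable def D2' (M : Type) [AddCommGroup M] [Module (SS 2) M] (n : ℕ) :
    ((Fin (n + 1) → Fin 4) → M) →ₗ[SS 2] ((Fin n → Fin 4) → M) :=
  D2 M n ∘ₗ (LinearEquiv.funCongrLeft (SS 2) M (wordEquiv n).symm).toLinearMap

lemma D2'_apply (M : Type) [AddCommGroup M] [Module (SS 2) M] (n : ℕ)
    (z : (Fin (n + 1) → Fin 4) → M) (w : Fin n → Fin 4) :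
    D2' M n z w = ∑ a : Fin 4, Ideal.Quotient.mk (maximalIdeal RR ^ 2) (monR (a.val + 1)) •
      z ((wordEquiv n).symm (a, w)) := rfl

lemma monR_mem (a : Fin 4) : monR (a.val + 1) ∈ maximalIdeal RR := by
  fin_cases a
  exacts [gX_mem, gY_mem, gU_mem, gV_mem]

lemma range_D2 (n : ℕ) (z : (Fin n → Fin 4) → SS 2) :
    z ∈ Set.range (D2' (SS 2) n) ↔ ∀ w, z w ∈ maximalIdeal (SS 2) := by
  constructor
  · rintro ⟨y, rfl⟩ w
    rw [D2'_apply]
    exact Submodule.sum_mem _ (fun a _ => Ideal.mul_mem_right _ _ ((mk_mem_max 1 _).2 (monR_mem a)))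
  · intro h
    have : ∀ w, ∃ c : Fin 4 → SS 2,
        ∑ a : Fin 4, Ideal.Quotient.mk (maximalIdeal RR ^ 2) (monR (a.val + 1)) • c a = z w := by
      intro w
      obtain ⟨r, hr⟩ := Ideal.Quotient.mk_surjective (z w)
      have h1 := h w
      rw [← hr, mk_mem_max 1] at h1
      obtain ⟨a, b, c, d, e⟩ := max_decomp h1
      refine ⟨![Ideal.Quotient.mk _ a, Ideal.Quotient.mk _ b, Ideal.Quotient.mk _ c,
        Ideal.Quotient.mk _ d], ?_⟩
      rw [← hr, e, Fin.sum_univ_four]
      simp only [map_add, map_mul]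
      rfl
    choose c hc using this
    exact ⟨fun w => c (wordEquiv n w).2 (wordEquiv n w).1, funext (fun w => by
      rw [← hc w]
      rfl)⟩

lemma ker_D2 (n : ℕ) (z : (Fin (n + 1) → Fin 4) → SS 2) :
    D2' (SS 2) n z = 0 ↔ ∀ w, z w ∈ maximalIdeal (SS 2) := by
  constructor
  · intro h w
    obtain ⟨⟨a, w⟩, rfl⟩ := (wordEquiv n).symm.surjective w
    choose r hr using fun b : Fin 4 => Ideal.Quotient.mk_surjective (z ((wordEquiv n).symm (b, w)))
    have h1 : ∑ b : Fin 4, Ideal.Quotient.mk (maximalIdeal RR ^ 2) (monR (b.val + 1)) •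
      z ((wordEquiv n).symm (b, w)) = 0 := congrFun h w
    simp only [← hr, smul_eq_mul, ← map_mul, ← map_sum] at h1
    rw [Ideal.Quotient.eq_zero_iff_mem, mem_m2, Fin.sum_univ_four] at h1
    simp only [forall_lt_five, cf_apply, cf'] at h1
    obtain ⟨-, h1, h2, h3, h4⟩ := h1
    simp [monR, gX, gY, gU, gV] at h1 h2 h3 h4
    rw [← hr, mk_mem_max 1, mem_max]
    fin_cases a
    exacts [h1, h2, h3, h4]
  · intro h
    funext w
    rw [D2'_apply]
    exact Finset.sum_eq_zero (fun a _ => mul_zero_S2 (monR_mem a) (h _))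

/-- the minimal resolution of the residue field of `SS 2` -/
noncomputable def resS2 : Res (SS 2) (ModuleCat.of (SS 2) (ResidueField (SS 2))) where
  F n := ModuleCat.of (SS 2) ((Fin n → Fin 4) → SS 2)
  proj n := (inferInstance : Module.Projective (SS 2) ((Fin n → Fin 4) → SS 2))
  d n := D2' (SS 2) n
  ε := (Algebra.linearMap (SS 2) (ResidueField (SS 2))) ∘ₗ LinearMap.proj default
  surj := fun c => by
    obtain ⟨r, rfl⟩ := residue_surjective c
    exact ⟨fun _ => r, rfl⟩
  ex0 := fun z => (residue_eq_zero_iff (z default)).trans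
    (Iff.trans ⟨fun h w => Subsingleton.elim default w ▸ h, fun h => h _⟩ (range_D2 0 z).symm)
  ex n := fun z => (ker_D2 n z).trans (range_D2 (n + 1) z).symm

lemma D2_smul (M : Type) [AddCommGroup M] [Module (SS 2) M] (n : ℕ)
    (f : (Fin (n + 1) → Fin 4) → SS 2) (m : M) :
    D2' M n (fun j => f j • m) = fun i => D2' (SS 2) n f i • m := by
  funext w
  simp only [D2'_apply, Finset.sum_smul, smul_eq_mul, mul_smul]

lemma D2_res (n : ℕ) : D2' (ResidueField (SS 2)) n = 0 := by
  refine LinearMap.ext (fun z => funext (fun w => ?_))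
  rw [D2'_apply]
  refine Finset.sum_eq_zero (fun a _ => ?_)
  rw [Algebra.smul_def, ResidueField.algebraMap_eq,
    (residue_eq_zero_iff _).2 ((mk_mem_max 1 _).2 (monR_mem a)), zero_mul]

lemma betti_S2_res (n : ℕ) : betti (SS 2) (ResidueField (SS 2)) n = 4 ^ n := by
  refine betti_add (card_resS 1) _ n (a := 0) ?_
  cases n with
  | zero =>
    have h := resS2.card_tor_zero (ModuleCat.of (SS 2) (ResidueField (SS 2)))
    have h1 := card_range_lTensor _ _ (D2_smul (ResidueField (SS 2)) 0)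
    have h2 := Nat.card_congr
      (piScalarRight (SS 2) (SS 2) (ResidueField (SS 2)) (Fin 0 → Fin 4)).toEquiv
    rw [D2_res, LinearMap.range_zero] at h1
    rw [Nat.card_fun, card_resS 1] at h2
    have h3 := (congrArg _ h1.symm).trans (h.trans h2)
    simpa using h3
  | succ n =>
    have h := resS2.card_tor_succ (ModuleCat.of (SS 2) (ResidueField (SS 2))) n
    have h1 := card_range_lTensor _ _ (D2_smul (ResidueField (SS 2)) (n + 1))
    have h2 := card_ker_lTensor _ _ (D2_smul (ResidueField (SS 2)) n)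
    rw [D2_res, LinearMap.range_zero] at h1
    rw [D2_res, LinearMap.ker_zero, Nat.card_congr Submodule.topEquiv.toEquiv, Nat.card_fun,
      card_resS 1] at h2
    have h3 := (congrArg _ h1.symm).trans (h.trans h2)
    simpa using h3

open PowerSeries in
lemma golod_two : IsGolod RR (SS 2) := by
  have h1 : poincare (SS 2) (ResidueField (SS 2)) * (1 - C 4 * X) = 1 := by
    ext n
    rw [mul_sub, mul_one, mul_comm (C 4), ← mul_assoc, map_sub, coeff_mul_C]
    cases n with
    | zero => simp [poincare, betti_S2_res]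
    | succ n => simp [poincare, betti_S2_res, coeff_succ_mul_X, pow_succ]
  have h2 : 1 - X * (poincare RR (SS 2) - 1) =
      poincare RR (ResidueField RR) * (1 - C 4 * X) := by
    ext n
    rw [mul_sub (poincare RR _), mul_one, mul_comm (C 4), ← mul_assoc, map_sub, map_sub,
      coeff_mul_C]
    rcases n with _ | _ | n
    · simp [poincare, betti_RR, card_Ix0]
    · simp [poincare, betti_RR, card_Ix0, card_Ix1, coeff_succ_mul_X, coeff_succ_X_mul,
        betti_S2_zero]
    · have h3 : ((betti RR (SS 2) (n + 1) : ℕ) : ℚ) + (Fintype.card (Ix (n + 2)) : ℕ) =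
          4 * (Fintype.card (Ix (n + 1)) : ℕ) := by exact_mod_cast betti_S2_succ n
      simp only [poincare, betti_RR, coeff_succ_mul_X, coeff_succ_X_mul, coeff_mk, map_sub,
        coeff_one, Nat.succ_ne_zero, if_false]
      linarith
  rw [IsGolod, eq_mul_inv_iff_mul_eq (by simp), h2, mul_left_comm, h1, mul_one]

end Pool.Agent.MP_0ebce1_al
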