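import Pool.Agent.MP_0ebce1_al.Data

set_option autoImplicit false

namespace Pool.Agent.MP_0ebce1_al

open IsLocalRing TensorProduct

/-- the columns stored in a number -/
def colOf (big j : ℕ) : List (ℕ × ℕ) := dec2 (dig 28 big j)

/-- check that the composite of two sparse matrices is zero -/
def chkComp (big big' a b : ℕ) : Bool :=
  allUpTo (fun j => (colOf big j).all (fun p => Nat.blt p.1 b) &&
    Nat.beq (maskL (app (colOf big') (colOf big j))) 0) a

/-- check a rank certificate -/
def chkRank (big rk a b N : ℕ) : Bool :=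
  allUpTo (fun t => Nat.blt (dig 26 rk t / 16 % 1024) a && Nat.blt (dig 26 rk t / 16384) (11 * b) &&
    Nat.beq (maskL (mulL (dig 26 rk t % 16) (colOf big (dig 26 rk t / 16 % 1024))) >>>
      (dig 26 rk t / 16384)) 1 &&
    (Nat.blt (dig 26 rk t / 16384) (dig 26 rk (t + 1) / 16384) || Nat.ble N (t + 1))) N

lemma chkComp_spec {big big' a b : ℕ} (c : ℕ) (h : chkComp big big' a b = true)
    (z : Fin a → SS 3) : Dm (colOf big') b c (Dm (colOf big) a b z) = 0 := by
  refine Dm_comp _ _ a b c (fun j hj => ?_) z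
  have h1 := allUpTo_spec h j hj
  simpa only [Bool.and_eq_true, List.all_eq_true, Nat.blt_eq, Nat.beq_eq] using h1

lemma chkRank_spec {big rk a b N : ℕ} (h : chkRank big rk a b N = true) :
    2 ^ N ≤ Nat.card (LinearMap.range (Dm (colOf big) a b)) := by
  refine card_range_Dm _ a b N (fun t => dig 26 rk t / 16384) (fun t => dig 26 rk t / 16 % 1024)
    (fun t => dig 26 rk t % 16) (fun t ht => ?_) (fun t ht => ?_)
  · have h1 := allUpTo_spec h t ht
    simp only [Bool.and_eq_true, Nat.blt_eq, Nat.beq_eq] at h1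
    exact ⟨h1.1.1.1, h1.1.1.2, h1.1.2⟩
  · have h1 := allUpTo_spec h t (by omega)
    simp only [Bool.and_eq_true, Bool.or_eq_true, Nat.blt_eq, Nat.ble_eq] at h1
    exact h1.2.resolve_right (by omega)

lemma comp1 : chkComp colD1 colD0 16 4 = true := by decide +kernel
lemma comp2 : chkComp colD2 colD1 63 16 = true := by decide +kernel
lemma comp3 : chkComp colD3 colD2 249 63 = true := by decide +kernel
lemma comp4 : chkComp colD4 colD3 983 249 = true := by decide +kernel
lemma rank0 : chkRank colD0 rkD0 4 1 10 = true := by decide +kernel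
lemma rank1 : chkRank colD1 rkD1 16 4 34 = true := by decide +kernel
lemma rank2 : chkRank colD2 rkD2 63 16 142 = true := by decide +kernel
lemma rank3 : chkRank colD3 rkD3 249 63 551 = true := by decide +kernel
lemma rank4 : chkRank colD4 rkD4 983 249 2188 = true := by decide +kernel

lemma col0_bit : ∀ j < 4, (maskL (colOf colD0 j)).testBit 0 = false := by decide +kernel

/-- the ranks of the free modules -/
def rkF (n : ℕ) : ℕ :=
  match n with
  | 0 => 1
  | 1 => 4
  | 2 => 16
  | 3 => 63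
  | 4 => 249
  | _ => 983

/-- the differentials -/
def bigF (n : ℕ) : ℕ :=
  match n with
  | 0 => colD0
  | 1 => colD1
  | 2 => colD2
  | 3 => colD3
  | _ => colD4

lemma card_free (a : ℕ) : Nat.card (Fin a → SS 3) = 2 ^ (11 * a) := by
  rw [Nat.card_fun, card_S3, Nat.card_eq_fintype_card, Fintype.card_fin, ← pow_mul]

/-- the augmentation -/
noncomputable def augS : (Fin 1 → SS 3) →ₗ[SS 3] ResidueField (SS 3) :=
  (Algebra.linearMap (SS 3) (ResidueField (SS 3))) ∘ₗ LinearMap.proj 0

lemma augS_surj : Function.Surjective augS := fun c => by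
  obtain ⟨r, rfl⟩ := residue_surjective c
  exact ⟨fun _ => r, rfl⟩

lemma card_ker_augS : Nat.card (LinearMap.ker augS) ≤ 2 ^ 10 := by
  have h := card_mul_card augS
  rw [LinearMap.range_eq_top.2 augS_surj, Nat.card_congr Submodule.topEquiv.toEquiv,
    card_resS 2, card_free] at h
  omega

lemma augS_comp (z : Fin 4 → SS 3) : augS (Dm (colOf colD0) 4 1 z) = 0 := by
  refine (residue_eq_zero_iff (Dm (colOf colD0) 4 1 z 0)).2 ?_
  rw [Dm_apply]
  refine Submodule.sum_mem _ (fun j _ => Ideal.mul_mem_left _ _ (mem_max_of_cfS ?_))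
  rw [cfS_evalL' _ _ 0 (by omega)]
  exact if_neg (by simpa using col0_bit j j.2)

lemma betti_le_of_res (P : Res (SS 3) (ModuleCat.of (SS 3) (ResidueField (SS 3)))) (n b : ℕ)
    (hP : P.F (n + 1) = ModuleCat.of (SS 3) (Fin b → SS 3)) :
    betti (SS 3) (ResidueField (SS 3)) (n + 1) ≤ b := by
  have h1 : Nat.card (ResidueField (SS 3) ⊗[SS 3] P.F (n + 1)) = 2 ^ b := by
    rw [hP]
    refine (Nat.card_congr
      (piScalarRight (SS 3) (SS 3) (ResidueField (SS 3)) (Fin b)).toEquiv).trans ?_
    rw [Nat.card_fun, card_resS 2, Nat.card_eq_fintype_card, Fintype.card_fin]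
  have : Finite (ResidueField (SS 3) ⊗[SS 3] P.F (n + 1)) :=
    Nat.finite_of_card_ne_zero (by rw [h1]; positivity)
  have h2 := card_tor (card_resS 2) (ResidueField (SS 3)) (n + 1) Nat.card_pos.ne'
    (P.card_tor_succ (ModuleCat.of (SS 3) (ResidueField (SS 3))) n)
  have h3 : Nat.card (LinearMap.ker ((P.d n).lTensor (ResidueField (SS 3)))) ≤ 2 ^ b :=
    h1 ▸ Nat.card_le_card_of_injective _ Subtype.val_injective
  have h4 : 0 < Nat.card (LinearMap.range ((P.d (n + 1)).lTensor (ResidueField (SS 3)))) :=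
    Nat.card_pos
  have h5 : 2 ^ betti (SS 3) (ResidueField (SS 3)) (n + 1) ≤ 2 ^ b :=
    (Nat.le_mul_of_pos_right _ h4).trans (h2.le.trans h3)
  exact (Nat.pow_le_pow_iff_right (by omega)).1 h5

lemma betti_five_le : betti (SS 3) (ResidueField (SS 3)) 5 ≤ 983 := by
  obtain ⟨e0, k0⟩ := exact_step (Dm (colOf colD0) 4 1) augS 10 34 augS_comp card_ker_augS
    (chkRank_spec rank0) (by rw [card_free])
  obtain ⟨e1, k1⟩ := exact_step (Dm (colOf colD1) 16 4) (Dm (colOf colD0) 4 1) 34 142
    (chkComp_spec 1 comp1) k0 (chkRank_spec rank1) (by rw [card_free])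
  obtain ⟨e2, k2⟩ := exact_step (Dm (colOf colD2) 63 16) (Dm (colOf colD1) 16 4) 142 551
    (chkComp_spec 4 comp2) k1 (chkRank_spec rank2) (by rw [card_free])
  obtain ⟨e3, k3⟩ := exact_step (Dm (colOf colD3) 249 63) (Dm (colOf colD2) 63 16) 551 2188
    (chkComp_spec 16 comp3) k2 (chkRank_spec rank3) (by rw [card_free])
  obtain ⟨e4, -⟩ := exact_step (Dm (colOf colD4) 983 249) (Dm (colOf colD3) 249 63) 2188 8625
    (chkComp_spec 63 comp4) k3 (chkRank_spec rank4) (by rw [card_free])
  obtain ⟨P, hP⟩ := exists_res 5 (ModuleCat.of (SS 3) (ResidueField (SS 3)))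
    (fun i => ModuleCat.of (SS 3) (Fin (rkF i) → SS 3))
    (fun i => (inferInstance : Module.Projective (SS 3) (Fin (rkF i) → SS 3)))
    (fun i => Dm (colOf (bigF i)) (rkF (i + 1)) (rkF i)) augS augS_surj (fun _ => e0)
    (fun i hi => by
      have : i = 0 ∨ i = 1 ∨ i = 2 ∨ i = 3 := by omega
      rcases this with rfl | rfl | rfl | rfl
      exacts [e1, e2, e3, e4])
  exact betti_le_of_res P 4 983 hP

end Pool.Agent.MP_0ebce1_al
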