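import Mathlib.RingTheory.PicardGroup
import Mathlib.RingTheory.AdicCompletion.Noetherian
import Mathlib.RingTheory.RegularLocalRing.Polynomial
import Mathlib.Tactic.Polynomial.Basic
import Pool.Agent.MP_0ebce1_al.Upper
import Pool.Agent.MP_0ebce1_al.Lower
import Pool.Agent.MP_0ebce1_al.Two

-- ======== part 0: formerly Pool.Agent.MP_0ebce1_al.Three
section MrgPart0

set_option autoImplicit false

namespace Pool.Agent.MP_0ebce1_al

open IsLocalRing TensorProduct

lemma le_of_counts {c r k k' a a' b : ℕ} (h1 : 2 ^ c * r = k) (h2 : k' * r = 2 ^ b)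
    (h3 : 2 ^ a ≤ k) (h4 : 2 ^ a' ≤ k') : a + a' ≤ c + b := by
  have h5 : 2 ^ (a + a') ≤ 2 ^ (c + b) := by
    rw [pow_add, pow_add, ← h2, mul_comm k', ← mul_assoc, h1]
    exact Nat.mul_le_mul h3 h4
  exact (Nat.pow_le_pow_iff_right (by omega)).1 h5

lemma card_IxS (n : ℕ) : Nat.card (Ix n → SS 3) = 2 ^ (11 * Fintype.card (Ix n)) := by
  rw [Nat.card_fun, card_S3, Nat.card_eq_fintype_card, ← pow_mul]

lemma betti_S3_succ (n a a' : ℕ) (h : 2 ^ a ≤ Nat.card (LinearMap.ker (DD (SS 3) n)))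
    (h' : 2 ^ a' ≤ Nat.card (LinearMap.ker (DD (SS 3) (n + 1)))) :
    a + a' ≤ betti RR (SS 3) (n + 1) + 11 * Fintype.card (Ix (n + 2)) :=
  le_of_counts (card_tor card_res (SS 3) (n + 1) Nat.card_pos.ne' (tor_succ (SS 3) n))
    ((card_mul_card (DD (SS 3) (n + 1))).trans (card_IxS _)) h h'

lemma betti_S3_zero : 1 ≤ betti RR (SS 3) 0 := by
  have h := le_of_counts (a := 11 * Fintype.card (Ix 0))
    (card_tor card_res (SS 3) 0 Nat.card_pos.ne' (tor_zero (SS 3)))
    ((card_mul_card (DD (SS 3) 0)).trans (card_IxS _)) (card_IxS 0).ge (chkKer_spec ker0)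
  rw [card_Ix0, card_Ix1] at h
  omega

lemma arith (a0 a1 a2 a3 a4 a5 c0 c1 c2 c3 c4 : ℕ) (e0 : a0 = 1) (e1 : a1 + a0 = 4 + c0 * a0)
    (e2 : a2 + a1 = 10 + (c0 * a1 + c1 * a0))
    (e3 : a3 + a2 = 20 + (c0 * a2 + c1 * a1 + c2 * a0))
    (e4 : a4 + a3 = 35 + (c0 * a3 + c1 * a2 + c2 * a1 + c3 * a0))
    (e5 : a5 + a4 = 56 + (c0 * a4 + c1 * a3 + c2 * a2 + c3 * a1 + c4 * a0))
    (h0 : 1 ≤ c0) (h1 : 6 ≤ c1) (h2 : 19 ≤ c2) (h3 : 42 ≤ c3) (h4 : 78 ≤ c4) (h5 : a5 ≤ 983) :
    False := by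
  subst e0
  have p0 : ∀ a, a ≤ c0 * a := fun a => Nat.le_mul_of_pos_left a h0
  have p1 : ∀ a, 6 * a ≤ c1 * a := fun a => Nat.mul_le_mul_right a h1
  have p2 : ∀ a, 19 * a ≤ c2 * a := fun a => Nat.mul_le_mul_right a h2
  have p3 : ∀ a, 42 * a ≤ c3 * a := fun a => Nat.mul_le_mul_right a h3
  have := p0 a1
  have := p0 a2
  have := p0 a3
  have := p0 a4
  have := p1 a1
  have := p1 a2
  have := p1 a3
  have := p2 a1
  have := p2 a2
  have := p3 a1
  omega

open PowerSeries in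
lemma not_golod_three : ¬ IsGolod RR (SS 3) := by
  intro h
  have c0 := betti_S3_zero
  have c1 := betti_S3_succ 0 _ _ (chkKer_spec ker0) (chkKer_spec ker1)
  have c2 := betti_S3_succ 1 _ _ (chkKer_spec ker1) (chkKer_spec ker2)
  have c3 := betti_S3_succ 2 _ _ (chkKer_spec ker2) (chkKer_spec ker3)
  have c4 := betti_S3_succ 3 _ _ (chkKer_spec ker3) (chkKer_spec ker4)
  rw [card_Ix2] at c1
  rw [card_Ix3] at c2
  rw [card_Ix4] at c3
  rw [card_Ix5] at c4
  have h5 := betti_five_le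
  have hc : constantCoeff (1 - X * (poincare RR (SS 3) - 1)) ≠ 0 := by simp
  rw [IsGolod, eq_mul_inv_iff_mul_eq hc] at h
  have h1 : poincare (SS 3) (ResidueField (SS 3)) + X * poincare (SS 3) (ResidueField (SS 3)) =
      poincare RR (ResidueField RR) +
        X * (poincare RR (SS 3) * poincare (SS 3) (ResidueField (SS 3))) := by
    linear_combination h
  have e0 := congrArg (coeff 0) h1
  have e : ∀ n, betti (SS 3) (ResidueField (SS 3)) (n + 1) + betti (SS 3) (ResidueField (SS 3)) n =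
      Fintype.card (Ix (n + 1)) + ∑ k ∈ Finset.range (n + 1),
        betti RR (SS 3) k * betti (SS 3) (ResidueField (SS 3)) (n - k) := by
    intro n
    have h2 := congrArg (coeff (n + 1)) h1
    rw [map_add, map_add, coeff_succ_X_mul, coeff_succ_X_mul, coeff_mul,
      Finset.Nat.sum_antidiagonal_eq_sum_range_succ_mk] at h2
    simp only [poincare, coeff_mk, betti_RR] at h2
    exact_mod_cast h2
  simp only [map_add, coeff_zero_X_mul, poincare, coeff_mk, betti_RR, card_Ix0, add_zero,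
    Nat.cast_inj] at e0
  have e1 := e 0
  have e2 := e 1
  have e3 := e 2
  have e4 := e 3
  have e5 := e 4
  simp only [Finset.sum_range_succ, Finset.sum_range_zero, zero_add, Nat.reduceAdd, Nat.reduceSub,
    card_Ix1, card_Ix2, card_Ix3, card_Ix4, card_Ix5] at e1 e2 e3 e4 e5 c1 c2 c3 c4
  exact arith _ _ _ _ _ _ _ _ _ _ _ e0 e1 e2 e3 e4 e5 c0 (by omega) (by omega) (by omega)
    (by omega) h5

end Pool.Agent.MP_0ebce1_al

end MrgPart0

-- ======== part 1: formerly Pool.Agent.MP_0ebce1_al.Homog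
section MrgPart1

set_option autoImplicit false

namespace Pool.Agent.MP_0ebce1_al

open IsLocalRing MvPolynomial

/-- the polynomial ring -/
abbrev PP : Type := MvPolynomial (Fin 4) (ZMod 2)

/-- the ideal of the origin -/
noncomputable def pp : Ideal PP := RingHom.ker (constantCoeff : PP →+* ZMod 2)

instance : pp.IsPrime := RingHom.ker_isPrime _

/-- the regular local ring -/
abbrev QQ : Type := Localization.AtPrime pp

/-- the constants -/
def cst : ZMod 2 →+* RR := Ex.C.comp Ex.C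

lemma ev_sub (g : Fin 4 → RR) (hg : ∀ i, g i ∈ maximalIdeal RR) (p : PP) :
    eval₂Hom cst g p - cst (constantCoeff p) ∈ maximalIdeal RR := by
  induction p using MvPolynomial.induction_on with
  | C a => simp
  | add p q hp hq =>
    have := add_mem hp hq
    rw [map_add, map_add, map_add]
    convert this using 1
    ring
  | mul_X p i _ =>
    simp only [map_mul, eval₂Hom_X', constantCoeff_X, map_zero, mul_zero, sub_zero]
    exact Ideal.mul_mem_left _ _ (hg i)

lemma ev_unit (g : Fin 4 → RR) (hg : ∀ i, g i ∈ maximalIdeal RR) (s : pp.primeCompl) :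
    IsUnit (eval₂Hom cst g s.1) := by
  by_contra h
  have h1 : eval₂Hom cst g s.1 ∈ maximalIdeal RR := h
  have h2 := sub_mem h1 (ev_sub g hg s.1)
  rw [sub_sub_cancel, mem_max] at h2
  exact s.2 h2

/-- evaluation on the local ring -/
noncomputable def th (g : Fin 4 → RR) (hg : ∀ i, g i ∈ maximalIdeal RR) : QQ →+* RR :=
  IsLocalization.lift (M := pp.primeCompl) (ev_unit g hg)

/-- the variables -/
noncomputable def xq (i : Fin 4) : QQ := algebraMap PP QQ (X i)

lemma th_xq (g : Fin 4 → RR) (hg : ∀ i, g i ∈ maximalIdeal RR) (i : Fin 4) :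
    th g hg (xq i) = g i := by
  rw [th, xq, IsLocalization.lift_eq, eval₂Hom_X']

lemma xq_mem (i : Fin 4) : xq i ∈ maximalIdeal QQ :=
  (IsLocalization.AtPrime.to_map_mem_maximal_iff QQ pp (X i)).2 (constantCoeff_X _ i)

lemma th_map (g : Fin 4 → RR) (hg : ∀ i, g i ∈ maximalIdeal RR) :
    (maximalIdeal QQ).map (th g hg) ≤ maximalIdeal RR := by
  rw [← Localization.AtPrime.map_eq_maximalIdeal, Ideal.map_map, Ideal.map_le_iff_le_comap]
  intro p hp
  have h1 := ev_sub g hg p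
  have h2 : constantCoeff p = 0 := hp
  rw [h2, map_zero, sub_zero] at h1
  rw [Ideal.mem_comap, RingHom.comp_apply, th, IsLocalization.lift_eq]
  exact h1

lemma th_mem_iff (g : Fin 4 → RR) (hg : ∀ i, g i ∈ maximalIdeal RR) (a : QQ) :
    a ∈ maximalIdeal QQ ↔ (th g hg a).c0.c0 = 0 := by
  rw [← mem_max]
  exact ⟨fun h => th_map g hg (Ideal.mem_map_of_mem _ h), fun h hu => h (hu.map _)⟩

lemma th_cube (g : Fin 4 → RR) (hg : ∀ i, g i ∈ maximalIdeal RR) {a : QQ}
    (h : a ∈ maximalIdeal QQ ^ 3) : cf 5 (th g hg a) = 0 := by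
  have h1 := Ideal.mem_map_of_mem (th g hg) h
  rw [Ideal.map_pow] at h1
  exact (mem_m3 _).1 (Ideal.pow_right_mono (th_map g hg) 3 h1) 5 (by omega)

lemma gen_mem : ∀ i, ![gX, gY, gU, gV] i ∈ maximalIdeal RR := fun i => by
  fin_cases i
  exacts [gX_mem, gY_mem, gU_mem, gV_mem]

/-- the presentation -/
noncomputable def psi : QQ →+* RR := th _ gen_mem

lemma psi_surj : Function.Surjective psi := by
  have hX : gX ∈ psi.range := ⟨xq 0, th_xq _ _ 0⟩
  have hY : gY ∈ psi.range := ⟨xq 1, th_xq _ _ 1⟩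
  have hU : gU ∈ psi.range := ⟨xq 2, th_xq _ _ 2⟩
  have hV : gV ∈ psi.range := ⟨xq 3, th_xq _ _ 3⟩
  have h0 : ∀ a : ZMod 2, (Ex.C (Ex.C a) : RR) ∈ psi.range := fun a => by
    obtain ⟨n, rfl⟩ := ZMod.natCast_zmod_surjective a
    rw [map_natCast, map_natCast]
    exact natCast_mem _ n
  have h1 : ∀ a : A1, (Ex.C a : RR) ∈ psi.range := fun a => by
    rw [Ex.eq_sum a]
    simp only [map_add, map_mul]
    exact add_mem (add_mem (add_mem (add_mem (h0 _) (mul_mem (h0 _) hX)) (mul_mem (h0 _) hY))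
      (mul_mem (h0 _) (mul_mem hY hY))) (mul_mem (h0 _) (mul_mem hY (mul_mem hY hY)))
  intro r
  change r ∈ psi.range
  rw [Ex.eq_sum r]
  exact add_mem (add_mem (add_mem (add_mem (h1 _) (mul_mem (h1 _) hU)) (mul_mem (h1 _) hV))
    (mul_mem (h1 _) (mul_mem hV hV))) (mul_mem (h1 _) (mul_mem hV (mul_mem hV hV)))

/-- the ideal of relations -/
noncomputable def JJ : Ideal QQ :=
  Ideal.span {xq 0 * xq 1, xq 0 * xq 0 - xq 1 * (xq 1 * xq 1), xq 2 * xq 3,
    xq 2 * xq 2 - xq 3 * (xq 3 * xq 3)}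

lemma psi_factor {B : Type} [CommRing B] (f : QQ →+* B) (r1 : f (xq 0) * f (xq 1) = 0)
    (r2 : f (xq 0) * f (xq 0) = f (xq 1) * (f (xq 1) * f (xq 1))) (r3 : f (xq 2) * f (xq 3) = 0)
    (r4 : f (xq 2) * f (xq 2) = f (xq 3) * (f (xq 3) * f (xq 3))) {a : QQ} (ha : psi a = 0) :
    f a = 0 := by
  let f0 : ZMod 2 →+* B := f.comp ((algebraMap PP QQ).comp C)
  let back : RR →+* B := Ex.lift (Ex.lift f0 _ _ r1 r2) _ _ r3 r4
  have h : back.comp psi = f := by
    refine IsLocalization.ringHom_ext pp.primeCompl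
      (MvPolynomial.ringHom_ext' (RingHom.ext_zmod _ _) (fun i => ?_))
    change back (psi (xq i)) = f (xq i)
    rw [psi, th_xq]
    fin_cases i
    · exact (Ex.lift_C _ _ _ _ _ _).trans (Ex.lift_x _ _ _ _ _)
    · exact (Ex.lift_C _ _ _ _ _ _).trans (Ex.lift_y _ _ _ _ _)
    · exact Ex.lift_x _ _ _ _ _
    · exact Ex.lift_y _ _ _ _ _
  rw [← h, RingHom.comp_apply, ha, map_zero]

lemma ker_le : RingHom.ker psi ≤ JJ := by
  intro a ha
  rw [← Ideal.Quotient.eq_zero_iff_mem]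
  refine psi_factor (B := QQ ⧸ JJ) (Ideal.Quotient.mk JJ) ?_ ?_ ?_ ?_ ha
  · rw [← map_mul, Ideal.Quotient.eq_zero_iff_mem]
    exact Ideal.subset_span (by simp)
  · rw [← map_mul, ← map_mul, ← map_mul, Ideal.Quotient.eq]
    exact Ideal.subset_span (by simp)
  · rw [← map_mul, Ideal.Quotient.eq_zero_iff_mem]
    exact Ideal.subset_span (by simp)
  · rw [← map_mul, ← map_mul, ← map_mul, Ideal.Quotient.eq]
    exact Ideal.subset_span (by simp)

lemma homog : IsHomogeneous 2 RR := by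
  have hk : RingHom.ker ((AdicCompletion.ofAlgEquiv (maximalIdeal RR)).toRingEquiv.toRingHom.comp
      psi) = RingHom.ker psi := by
    ext a
    rw [RingHom.mem_ker, RingHom.mem_ker, RingHom.comp_apply]
    exact map_eq_zero_iff _ (AdicCompletion.ofAlgEquiv (maximalIdeal RR)).injective
  have h2 : RingHom.ker psi ≤ maximalIdeal QQ ^ 2 := by
    refine ker_le.trans (Ideal.span_le.2 ?_)
    have hm : ∀ i a, a ∈ maximalIdeal QQ → xq i * a ∈ maximalIdeal QQ ^ 2 := fun i a ha => by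
      rw [pow_two]
      exact Ideal.mul_mem_mul (xq_mem i) ha
    rintro _ (rfl | rfl | rfl | rfl)
    · exact hm _ _ (xq_mem _)
    · exact sub_mem (hm _ _ (xq_mem _)) (hm _ _ (Ideal.mul_mem_left _ _ (xq_mem _)))
    · exact hm _ _ (xq_mem _)
    · exact sub_mem (hm _ _ (xq_mem _)) (hm _ _ (Ideal.mul_mem_left _ _ (xq_mem _)))
  refine ⟨QQ, inferInstance, inferInstance,
    (AdicCompletion.ofAlgEquiv (maximalIdeal RR)).toRingEquiv.toRingHom.comp psi,
    (AdicCompletion.ofAlgEquiv (maximalIdeal RR)).surjective.comp psi_surj, hk ▸ h2, hk ▸ h2, ?_⟩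
  rw [hk]
  rintro f ⟨hf, hf3⟩
  obtain ⟨a, w1, k1, rfl⟩ := Ideal.mem_span_insert.1 (ker_le hf)
  obtain ⟨b, w2, k2, rfl⟩ := Ideal.mem_span_insert.1 k1
  obtain ⟨c, w3, k3, rfl⟩ := Ideal.mem_span_insert.1 k2
  obtain ⟨d, rfl⟩ := Ideal.mem_span_singleton'.1 k3
  have t1 : ∀ i, ![gY, 0, 0, 0] i ∈ maximalIdeal RR := fun i => by
    fin_cases i
    exacts [gY_mem, zero_mem _, zero_mem _, zero_mem _]
  have t2 : ∀ i, ![gY, gY, 0, 0] i ∈ maximalIdeal RR := fun i => by
    fin_cases i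
    exacts [gY_mem, gY_mem, zero_mem _, zero_mem _]
  have t3 : ∀ i, ![0, 0, gY, 0] i ∈ maximalIdeal RR := fun i => by
    fin_cases i
    exacts [zero_mem _, zero_mem _, gY_mem, zero_mem _]
  have t4 : ∀ i, ![0, 0, gY, gY] i ∈ maximalIdeal RR := fun i => by
    fin_cases i
    exacts [zero_mem _, zero_mem _, gY_mem, gY_mem]
  have hb : b ∈ maximalIdeal QQ := by
    have h1 := th_cube _ t1 hf3
    rw [th_mem_iff _ t1]
    simpa [th_xq, cf_apply, cf', gY] using h1
  have ha : a ∈ maximalIdeal QQ := by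
    have h1 := th_cube _ t2 hf3
    have h3 := (th_mem_iff _ t2 b).1 hb
    have h4 : (th _ t2 a).c0.c0 + (th _ t2 b).c0.c0 = 0 := by
      simpa [th_xq, cf_apply, cf', gY, sub_eq_add_neg] using h1
    rwa [h3, add_zero, ← th_mem_iff] at h4
  have hd : d ∈ maximalIdeal QQ := by
    have h1 := th_cube _ t3 hf3
    rw [th_mem_iff _ t3]
    simpa [th_xq, cf_apply, cf', gY] using h1
  have hc : c ∈ maximalIdeal QQ := by
    have h1 := th_cube _ t4 hf3
    have h3 := (th_mem_iff _ t4 d).1 hd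
    have h4 : (th _ t4 c).c0.c0 + (th _ t4 d).c0.c0 = 0 := by
      simpa [th_xq, cf_apply, cf', gY, sub_eq_add_neg] using h1
    rwa [h3, add_zero, ← th_mem_iff] at h4
  refine add_mem (Ideal.mul_mem_mul ha ?_) (add_mem (Ideal.mul_mem_mul hb ?_)
    (add_mem (Ideal.mul_mem_mul hc ?_) (Ideal.mul_mem_mul hd ?_)))
  all_goals rw [RingHom.mem_ker]
  all_goals simp only [psi, map_mul, map_sub, th_xq]
  · exact gXY
  · exact sub_eq_zero.2 gXX
  · exact Ex.x_mul_y
  · exact sub_eq_zero.2 Ex.x_mul_x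

end Pool.Agent.MP_0ebce1_al

end MrgPart1

-- marker of a merged file
example : 731051 + 846052 = 731051 + 846052 := rfl
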