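import Pool.Agent.MP_0ebce1_al.Two

set_option autoImplicit false

namespace Pool.Agent.MP_0ebce1_al

open IsLocalRing TensorProduct

/-- bounded universal check -/
def allUpTo (f : ℕ → Bool) : ℕ → Bool
  | 0 => true
  | n + 1 => f n && allUpTo f n

lemma allUpTo_spec {f : ℕ → Bool} : ∀ {n : ℕ}, allUpTo f n = true → ∀ t < n, f t = true
  | 0, _, _, ht => absurd ht (Nat.not_lt_zero _)
  | n + 1, h, t, ht => by
    rw [allUpTo, Bool.and_eq_true] at h
    rcases (Nat.lt_succ_iff_lt_or_eq.1 ht) with h1 | rfl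
    · exact allUpTo_spec h.2 t h1
    · exact h.1

lemma card_ge {V : Type} [AddCommGroup V] [Finite V] (c : ℕ → V →+ ZMod 2) (v : ℕ → V)
    (l : ℕ → ℕ) : ∀ (N : ℕ) (W : AddSubgroup V),
      (∀ t < N, v t ∈ W ∧ c (l t) (v t) = 1 ∧ ∀ n, l t < n → c n (v t) = 0) →
      (∀ t, t + 1 < N → l t < l (t + 1)) → 2 ^ N ≤ Nat.card W
  | 0, W, _, _ => Nat.card_pos
  | N + 1, W, h1, h2 => by
    have h3 : ∀ s t, t + s + 1 ≤ N → l t < l (t + s + 1) := by
      intro s
      induction s with
      | zero => exact fun t ht => h2 t (by omega)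
      | succ s ih => exact fun t ht => (ih t (by omega)).trans (h2 (t + s + 1) (by omega))
    have h4 : ∀ t < N, l t < l N := fun t ht => by
      have := h3 (N - t - 1) t (by omega)
      rwa [show t + (N - t - 1) + 1 = N by omega] at this
    have ih := card_ge c v l N (W ⊓ (c (l N)).ker)
      (fun t ht => ⟨⟨(h1 t (by omega)).1, (h1 t (by omega)).2.2 _ (h4 t ht)⟩,
        (h1 t (by omega)).2⟩) (fun t ht => h2 t (by omega))
    obtain ⟨h5, h6, -⟩ := h1 N (by omega)
    let f : (W ⊓ (c (l N)).ker : AddSubgroup V) ⊕ (W ⊓ (c (l N)).ker : AddSubgroup V) → W :=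
      Sum.elim (fun a => ⟨a.1, a.2.1⟩) (fun a => ⟨a.1 + v N, add_mem a.2.1 h5⟩)
    have hf : Function.Injective f := by
      have key : ∀ a b : (W ⊓ (c (l N)).ker : AddSubgroup V), a.1 ≠ b.1 + v N := by
        intro a b e
        have e1 := congrArg (c (l N)) e
        have ha : c (l N) a.1 = 0 := a.2.2
        have hb : c (l N) b.1 = 0 := b.2.2
        rw [map_add, ha, hb, h6, zero_add] at e1
        exact zero_ne_one e1
      rintro (a | a) (b | b) e
      · have e1 : a.1 = b.1 := congrArg (fun w : W => w.1) e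
        exact congrArg _ (Subtype.ext e1)
      · exact absurd (congrArg Subtype.val e) (key a b)
      · exact absurd (congrArg Subtype.val e).symm (key b a)
      · exact congrArg _ (Subtype.ext (add_right_cancel (congrArg Subtype.val e)))
    have h7 := Nat.card_le_card_of_injective f hf
    rw [Nat.card_sum] at h7
    omega

/-- the monomials of the quotient by the cube of the maximal ideal -/
noncomputable def mon (μ : ℕ) : SS 3 := Ideal.Quotient.mk _ (monR μ)

lemma monR_ge {μ : ℕ} (h : ¬ μ < 11) : monR μ = 0 := by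
  obtain ⟨k, rfl⟩ : ∃ k, μ = k + 11 := ⟨μ - 11, by omega⟩
  rfl

/-- the multiplication table of the monomials -/
def tab (μ ν : ℕ) : ℕ :=
  bif Nat.blt μ 11 && Nat.blt ν 11 then (36628516323704802967777294125709041597101226665841563147408269581479238471006709582164520333273271397883048957145773404105752840799778688571027984 >>> (4 * (11 * μ + ν))) % 16 else 11

lemma tab_spec : ∀ μ < 11, ∀ ν < 11, ∀ a < 11,
    cf a (monR μ * monR ν) = cf a (monR (tab μ ν)) := by
  decide +kernel

lemma mon_mul (μ ν : ℕ) : mon μ * mon ν = mon (tab μ ν) := by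
  rw [mon, mon, mon, ← map_mul]
  by_cases h : μ < 11 ∧ ν < 11
  · rw [Ideal.Quotient.eq, mem_m3]
    intro a ha
    rw [map_sub, tab_spec μ h.1 ν h.2 a ha, sub_self]
  · have h1 : tab μ ν = 11 := by
      have : (Nat.blt μ 11 && Nat.blt ν 11) = false := by
        rw [Bool.eq_false_iff]
        simpa [Nat.blt_eq] using h
      rw [tab, this, cond_false]
    rw [h1, monR_ge (lt_irrefl 11)]
    rcases not_and_or.1 h with h | h
    · rw [monR_ge h, zero_mul]
    · rw [monR_ge h, mul_zero]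

/-- coordinates on the quotient -/
noncomputable def cfS (n : ℕ) : SS 3 →+ ZMod 2 :=
  QuotientAddGroup.lift (maximalIdeal RR ^ 3).toAddSubgroup (cf (n % 11))
    (fun r hr => (mem_m3 r).1 hr _ (Nat.mod_lt _ (by omega)))

lemma cfS_mk (n : ℕ) (r : RR) : cfS n (Ideal.Quotient.mk _ r) = cf (n % 11) r := rfl

lemma eq_zero_of_cfS {s : SS 3} (h : ∀ μ < 11, cfS μ s = 0) : s = 0 := by
  obtain ⟨r, rfl⟩ := Ideal.Quotient.mk_surjective s
  rw [Ideal.Quotient.eq_zero_iff_mem, mem_m3]
  intro μ hμ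
  have := h μ hμ
  rwa [cfS_mk, Nat.mod_eq_of_lt hμ] at this

lemma mem_max_of_cfS {s : SS 3} (h : cfS 0 s = 0) : s ∈ maximalIdeal (SS 3) := by
  obtain ⟨r, rfl⟩ := Ideal.Quotient.mk_surjective s
  rw [mk_mem_max 2, mem_max]
  exact h

/-- the vector given by a list of terms -/
noncomputable def evalL : List (ℕ × ℕ) → ℕ → SS 3
  | [], _ => 0
  | p :: L, i => (if p.1 = i then mon p.2 else 0) + evalL L i

/-- the bit mask of a list of terms -/
def maskL : List (ℕ × ℕ) → ℕ
  | [] => 0
  | p :: L => (bif Nat.blt p.2 11 then 1 <<< (11 * p.1 + p.2) else 0) ^^^ maskL L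

lemma evalL_append (L L' : List (ℕ × ℕ)) (i : ℕ) : evalL (L ++ L') i = evalL L i + evalL L' i := by
  induction L with
  | nil => simp [evalL]
  | cons p L ih => simp only [List.cons_append, evalL, ih, add_assoc]

lemma cfS_evalL (L : List (ℕ × ℕ)) (n : ℕ) :
    cfS n (evalL L (n / 11)) = if (maskL L).testBit n then 1 else 0 := by
  induction L with
  | nil => simp [evalL, maskL]
  | cons p L ih =>
    have h1 : cfS n (if p.1 = n / 11 then mon p.2 else 0) =
        if (bif Nat.blt p.2 11 then 1 <<< (11 * p.1 + p.2) else 0).testBit n then 1 else 0 := by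
      by_cases hp : p.2 < 11
      · rw [show Nat.blt p.2 11 = true by simpa [Nat.blt_eq] using hp, cond_true, Nat.one_shiftLeft, Nat.testBit_two_pow]
        by_cases h2 : p.1 = n / 11
        · rw [if_pos h2, mon, cfS_mk, cf_monR _ (Nat.mod_lt _ (by omega)) _ hp]
          exact if_congr (by rw [decide_eq_true_iff]; omega) rfl rfl
        · rw [if_neg h2, map_zero, if_neg (by rw [decide_eq_true_iff]; omega)]
      · have : Nat.blt p.2 11 = false := by
          rw [Bool.eq_false_iff]
          simpa [Nat.blt_eq] using hp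
        rw [this, cond_false, mon, monR_ge hp]
        simp
    rw [evalL, maskL, map_add, ih, h1, Nat.testBit_xor]
    generalize Nat.testBit _ n = a
    generalize Nat.testBit _ n = b
    cases a <;> cases b <;> decide

lemma cfS_evalL' (L : List (ℕ × ℕ)) (i μ : ℕ) (hμ : μ < 11) :
    cfS μ (evalL L i) = if (maskL L).testBit (11 * i + μ) then 1 else 0 := by
  rw [← cfS_evalL, show (11 * i + μ) / 11 = i by omega]
  obtain ⟨r, hr⟩ := Ideal.Quotient.mk_surjective (evalL L i)
  rw [← hr, cfS_mk, cfS_mk, show (11 * i + μ) % 11 = μ % 11 by omega]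

lemma evalL_eq_zero {L : List (ℕ × ℕ)} (h : maskL L = 0) (i : ℕ) : evalL L i = 0 :=
  eq_zero_of_cfS (fun μ hμ => by rw [cfS_evalL' L i μ hμ, h]; simp)

lemma card_ge_mask {ι : Type} [Finite ι] (code : ι → ℕ) (W : AddSubgroup (ι → SS 3))
    (L : ℕ → List (ℕ × ℕ)) (l : ℕ → ℕ) (N : ℕ)
    (h1 : ∀ t < N, (fun i => evalL (L t) (code i)) ∈ W ∧ maskL (L t) >>> l t = 1 ∧
      ∃ i, code i = l t / 11)
    (h2 : ∀ t, t + 1 < N → l t < l (t + 1)) : 2 ^ N ≤ Nat.card W := by
  classical
  refine card_ge (fun n => if h : ∃ i, code i = n / 11 then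
    (cfS n).comp (Pi.evalAddMonoidHom (fun _ => SS 3) h.choose) else 0)
    (fun t i => evalL (L t) (code i)) l N W (fun t ht => ?_) h2
  obtain ⟨h3, h4, h5⟩ := h1 t ht
  have h6 : ∀ k, (maskL (L t)).testBit (l t + k) = Nat.testBit 1 k := fun k => by
    rw [← h4, Nat.testBit_shiftRight]
  refine ⟨h3, ?_, fun n hn => ?_⟩
  · rw [dif_pos h5]
    change cfS _ (evalL (L t) (code h5.choose)) = 1
    rw [h5.choose_spec, cfS_evalL, ← add_zero (l t), h6 0]
    rfl
  · by_cases h7 : ∃ i, code i = n / 11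
    · rw [dif_pos h7]
      change cfS _ (evalL (L t) (code h7.choose)) = 0
      obtain ⟨k, rfl⟩ : ∃ k, n = l t + (k + 1) := ⟨n - l t - 1, by omega⟩
      rw [h7.choose_spec, cfS_evalL, h6 (k + 1), Nat.testBit_succ]
      simp
    · rw [dif_neg h7]
      rfl

/-- multiply a list of terms by a monomial -/
def mulL (ν : ℕ) : List (ℕ × ℕ) → List (ℕ × ℕ)
  | [] => []
  | p :: L => (p.1, tab ν p.2) :: mulL ν L

lemma evalL_mulL (ν : ℕ) (L : List (ℕ × ℕ)) (i : ℕ) : evalL (mulL ν L) i = mon ν * evalL L i := by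
  induction L with
  | nil => simp [evalL, mulL]
  | cons p L ih =>
    simp only [mulL, evalL, ih, mul_add, ← mon_mul]
    split_ifs <;> simp

/-- one coordinate of a list of terms, multiplied by a monomial -/
def selM (ν c : ℕ) : List (ℕ × ℕ) → List (ℕ × ℕ)
  | [] => []
  | p :: L => bif Nat.beq p.1 c then (0, tab ν p.2) :: selM ν c L else selM ν c L

lemma evalL_selM (ν c : ℕ) (L : List (ℕ × ℕ)) : evalL (selM ν c L) 0 = mon ν * evalL L c := by
  induction L with
  | nil => simp [evalL, selM]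
  | cons p L ih =>
    by_cases h : p.1 = c
    · simp only [selM, h, Nat.beq_refl, cond_true, evalL, ih, if_true, mul_add, mon_mul]
    · have : Nat.beq p.1 c = false := by
        rw [Bool.eq_false_iff]
        simpa [Nat.beq_eq] using h
      simp only [selM, this, cond_false, evalL, ih, if_neg h, zero_add]

/-- apply a sparse matrix to a list of terms -/
def app (col : ℕ → List (ℕ × ℕ)) : List (ℕ × ℕ) → List (ℕ × ℕ)
  | [] => []
  | p :: L => mulL p.2 (col p.1) ++ app col L

/-- the linear map of a sparse matrix -/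
noncomputable def Dm (col : ℕ → List (ℕ × ℕ)) (a b : ℕ) :
    (Fin a → SS 3) →ₗ[SS 3] (Fin b → SS 3) where
  toFun z i := ∑ j : Fin a, z j * evalL (col j) i
  map_add' z w := by
    funext i
    simp only [Pi.add_apply, add_mul, Finset.sum_add_distrib]
  map_smul' c z := by
    funext i
    simp only [Pi.smul_apply, smul_eq_mul, RingHom.id_apply, Finset.mul_sum, mul_assoc]

lemma Dm_apply (col : ℕ → List (ℕ × ℕ)) (a b : ℕ) (z : Fin a → SS 3) (i : Fin b) :
    Dm col a b z i = ∑ j : Fin a, z j * evalL (col j) i := rfl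

lemma Dm_evalL (col : ℕ → List (ℕ × ℕ)) (a b : ℕ) (L : List (ℕ × ℕ)) (h : ∀ p ∈ L, p.1 < a) :
    Dm col a b (fun j => evalL L j) = fun i : Fin b => evalL (app col L) i := by
  funext i
  rw [Dm_apply]
  induction L with
  | nil => simp [evalL, app]
  | cons p L ih =>
    simp only [evalL, app, add_mul, Finset.sum_add_distrib, evalL_append, evalL_mulL]
    rw [ih (fun q hq => h q (List.mem_cons_of_mem _ hq)),
      Finset.sum_eq_single (⟨p.1, h p List.mem_cons_self⟩ : Fin a)]
    · rw [if_pos rfl]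
    · intro j _ hj
      rw [if_neg (fun e => hj (Fin.ext e.symm)), zero_mul]
    · simp

lemma Dm_comp (col col' : ℕ → List (ℕ × ℕ)) (a b c : ℕ)
    (h : ∀ j < a, (∀ p ∈ col j, p.1 < b) ∧ maskL (app col' (col j)) = 0) (z : Fin a → SS 3) :
    Dm col' b c (Dm col a b z) = 0 := by
  have e : Dm col a b z = ∑ j : Fin a, z j • fun i : Fin b => evalL (col j) i := by
    funext i
    rw [Dm_apply, Finset.sum_apply]
    rfl
  rw [e, map_sum]
  refine Finset.sum_eq_zero (fun j _ => ?_)
  rw [map_smul, Dm_evalL col' b c _ (h j j.2).1]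
  funext i
  simp only [Pi.smul_apply, evalL_eq_zero (h j j.2).2, smul_zero, Pi.zero_apply]

lemma card_range_Dm (col : ℕ → List (ℕ × ℕ)) (a b N : ℕ) (l j μ : ℕ → ℕ)
    (h1 : ∀ t < N, j t < a ∧ l t < 11 * b ∧ maskL (mulL (μ t) (col (j t))) >>> l t = 1)
    (h2 : ∀ t, t + 1 < N → l t < l (t + 1)) :
    2 ^ N ≤ Nat.card (LinearMap.range (Dm col a b)) := by
  refine card_ge_mask (fun i : Fin b => i.val) (LinearMap.range (Dm col a b)).toAddSubgroup
    (fun t => mulL (μ t) (col (j t))) l N (fun t ht => ?_) h2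
  obtain ⟨h3, h4, h5⟩ := h1 t ht
  refine ⟨⟨fun i => evalL [(j t, μ t)] i, ?_⟩, h5, ⟨⟨l t / 11, by omega⟩, rfl⟩⟩
  rw [Dm_evalL col a b _ (by simpa using h3)]
  simp only [app, List.append_nil]

lemma exact_step {A E F G : Type} [CommRing A] [AddCommGroup E] [Module A E] [AddCommGroup F]
    [Module A F] [AddCommGroup G] [Module A G] [Finite F] (f : E →ₗ[A] F) (g : F →ₗ[A] G)
    (k k' : ℕ) (h1 : ∀ z, g (f z) = 0) (h2 : Nat.card (LinearMap.ker g) ≤ 2 ^ k)
    (h3 : 2 ^ k ≤ Nat.card (LinearMap.range f)) (h4 : Nat.card E = 2 ^ (k' + k)) :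
    Function.Exact f g ∧ Nat.card (LinearMap.ker f) ≤ 2 ^ k' := by
  constructor
  · have h5 : LinearMap.range f ≤ LinearMap.ker g := by
      rintro _ ⟨z, rfl⟩
      exact h1 z
    rw [LinearMap.exact_iff]
    refine (Submodule.toAddSubgroup_injective ?_).symm
    exact AddSubgroup.eq_of_le_of_card_ge h5 (h2.trans h3)
  · have h5 := card_mul_card f
    rw [h4, pow_add] at h5
    exact Nat.le_of_mul_le_mul_right (h5 ▸ Nat.mul_le_mul_left _ h3) (by positivity)

lemma exists_res {A : Type} [CommRing A] : ∀ (n : ℕ) (K : ModuleCat.{0} A)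
    (F : ℕ → ModuleCat.{0} A) (_ : ∀ i, Module.Projective A (F i))
    (d : ∀ i, F (i + 1) →ₗ[A] F i) (ε : F 0 →ₗ[A] K), Function.Surjective ε →
    (0 < n → Function.Exact (d 0) ε) → (∀ i, i + 1 < n → Function.Exact (d (i + 1)) (d i)) →
    ∃ P : Res A K, P.F n = F n
  | 0, K, F, hF, _, ε, h1, _, _ => by
    obtain ⟨P⟩ := nonempty_res (ModuleCat.of A (LinearMap.ker ε))
    exact ⟨P.cons (hF := hF 0) (F 0) ε h1 (LinearMap.ker ε).subtype (Submodule.injective_subtype _)
      (LinearMap.exact_subtype_ker_map ε), rfl⟩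
  | n + 1, K, F, hF, d, ε, h1, h2, h3 => by
    have h4 := h2 (by omega)
    obtain ⟨P, hP⟩ := exists_res n (ModuleCat.of A (LinearMap.ker ε)) (fun i => F (i + 1))
      (fun i => hF (i + 1)) (fun i => d (i + 1))
      ((d 0).codRestrict (LinearMap.ker ε) (fun z => h4.apply_apply_eq_zero z))
      (fun y => by
        obtain ⟨z, hz⟩ := (h4 y.1).1 y.2
        exact ⟨z, Subtype.ext hz⟩)
      (fun hn y => Iff.trans ⟨fun h => congrArg Subtype.val h, fun h => Subtype.ext h⟩
        (h3 0 (by omega) y))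
      (fun i hi => h3 (i + 1) (by omega))
    exact ⟨P.cons (hF := hF 0) (F 0) ε h1 (LinearMap.ker ε).subtype (Submodule.injective_subtype _)
      (LinearMap.exact_subtype_ker_map ε), hP⟩

end Pool.Agent.MP_0ebce1_al
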